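import Pool.Agent.H688R2.Cla.Spec

/-!
# The circuit is invariant
-/

namespace H688R2.Cla

open Equiv Finset H688R2.Sym CG

theorem C1_holds : C1 := by
  intro α _ m k L P f
  classical
  refine ⟨?_, ?_, ?_, ?_⟩
  · rintro π (_ | _ | _ | _ | _ | _ | _ | _ | _ | _ | _) <;> rfl
  · rintro π (_ | T | T | _ | _ | _ | _ | _ | _ | _ | _)
      (_ | T' | T' | _ | _ | _ | _ | _ | _ | _ | _) <;> try rfl
    · rename_i a
      show (if π a ∈ T.1.map π.toEmbedding then 1 else 0) = (if a ∈ T.1 then 1 else 0)
      congr 1
      simp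
    · rename_i a
      show (if π a ∈ T.1.map π.toEmbedding then 1 else 0) = (if a ∈ T.1 then 1 else 0)
      congr 1
      simp
    · rename_i p e c
      show (if (T'.1.map π.toEmbedding).card = e.1 then 1 else 0)
        = (if T'.1.card = e.1 then 1 else 0)
      rw [card_map]
    · rename_i j
      show (if (T'.1.map π.toEmbedding).card = j.1 then 1 else 0)
        = (if T'.1.card = j.1 then 1 else 0)
      rw [card_map]
    · rename_i j
      show (if (T'.1.map π.toEmbedding).card = j.1 then 1 else 0)
        = (if T'.1.card = j.1 then 1 else 0)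
      rw [card_map]
  · rintro π (_ | _ | _ | _ | _ | _ | _ | _ | _ | _ | _) <;> rfl
  · intro π
    rfl

end H688R2.Cla
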