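import Pool.Agent.H688R2.Cla.Spec

namespace H688R2.Cla

open Equiv Finset H688R2.Sym CG

theorem C2_holds' : C2 := by
  classical
  intro α _ m k L P f
  have hz : ∀ b b' : ℕ, min b 1 = min b' 1 → (b = 0 ↔ b' = 0) := by
    intro b b' h; omega
  rintro (_ | _ | _ | ⟨p, e, c⟩ | _ | _ | _ | _ | _ | _ | _) a b a' b' h1 h2 h3
  · exact Iff.rfl
  · exact hz b b' h3
  · exact hz a a' h2
  · show (if p.1 ∣ m then a % p.1 = c.1 else True) ↔ (if p.1 ∣ m then a' % p.1 = c.1 else True)
    by_cases hp : p.1 ∣ m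
    · rw [if_pos hp, if_pos hp]
      have : a % p.1 = a' % p.1 := by
        rw [← Nat.mod_mod_of_dvd a hp, ← Nat.mod_mod_of_dvd a' hp, h1]
      rw [this]
    · rw [if_neg hp, if_neg hp]
  · exact not_congr (hz a a' h2)
  · exact not_congr (hz a a' h2)
  · exact and_congr (not_congr (hz a a' h2)) (not_congr (hz b b' h3))
  · exact and_congr (not_congr (hz a a' h2)) (not_congr (hz b b' h3))
  · exact hz b b' h3
  · exact hz b b' h3
  · exact not_congr (hz a a' h2)

theorem C3_holds' (hU : UPP) : C3 := by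
  classical
  intro α _ m k L hm hk
  have h1 := (hU m k hm hk).2.1
  have h2 := UG.card_subsets_le (α := α) (k := k + L)
  rw [Fintype.card_congr (toSum (α := α) (m := m) (k := k) (L := L) (P := upPer m k))]
  simp only [Fintype.card_sum, Fintype.card_prod, Fintype.card_fin, Fintype.card_unit]
  have h3 : (m + 1) * ((k + 1) * (m + 1)) = (m + 1) ^ 2 * (k + 1) := by ring
  have h4 : 2 * m * k ^ m.primeFactors.card = 2 * (m * k ^ m.primeFactors.card) := by ring
  rw [h3, h4]
  omega

end H688R2.Cla
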