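import Pool.Agent.H688R2.Cla.Spec

/-!
# C4: the values of the conjunctions
-/

namespace H688R2.Cla

open Equiv Finset H688R2.Sym CG

theorem C4_nor {I Q : Type*} [Fintype Q] (D : Circuit I Q) (x : I → Prop) (q : Q)
    (hi : D.input q = none) (hg : D.gate q = fun a _ => a = 0) :
    D.val x q ↔ ∀ q', D.wires q q' ≠ 0 → ¬ D.val x q' := by
  classical
  rw [val_gate D x q hi, hg]
  show _ = 0 ↔ _
  rw [sum_eq_zero_iff]
  constructor
  · intro h q' hw hv
    have := h q' (mem_univ _)
    rw [if_pos hv] at this
    exact hw this
  · intro h q' _
    by_cases hv : D.val x q'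
    · rw [if_pos hv]
      by_contra hw
      exact h q' hw hv
    · rw [if_neg hv]

theorem C4_holds : C4 := by
  intro α _ m k L P f x T
  classical
  constructor
  · rw [and_gate _ _ _ rfl rfl]
    constructor
    · intro h a ha
      have := h (inp a) (by
        show (if a ∈ T.1 then 1 else 0) ≠ 0
        rw [if_pos ha]; exact one_ne_zero)
      rwa [val_input _ x (inp a) a rfl] at this
    · intro h q' hw
      rcases q' with a | _ | _ | _ | _ | _ | _ | _ | _ | _ | _
      · rw [val_input _ x (inp a) a rfl]
        apply h
        by_contra ha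
        apply hw
        show (if a ∈ T.1 then 1 else 0) = 0
        rw [if_neg ha]
      all_goals exact absurd rfl hw
  · rw [C4_nor _ _ _ rfl rfl]
    constructor
    · intro h a ha
      have := h (inp a) (by
        show (if a ∈ T.1 then 1 else 0) ≠ 0
        rw [if_pos ha]; exact one_ne_zero)
      rwa [val_input _ x (inp a) a rfl] at this
    · intro h q' hw
      rcases q' with a | _ | _ | _ | _ | _ | _ | _ | _ | _ | _
      · rw [val_input _ x (inp a) a rfl]
        apply h
        by_contra ha
        apply hw
        show (if a ∈ T.1 then 1 else 0) = 0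
        rw [if_neg ha]
      all_goals exact absurd rfl hw

end H688R2.Cla
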