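import Pool.Agent.H688R2.Cla.Spec

namespace H688R2.Cla

open Equiv Finset H688R2.Sym CG

theorem C4_holds' : C4 := by
  classical
  intro α _ m k L P f x T
  constructor
  · rw [and_gate (cir α m k L P f) x (mon T) rfl rfl]
    constructor
    · intro h a ha
      have := h (inp a) (by show (if a ∈ T.1 then 1 else 0) ≠ 0; rw [if_pos ha]; exact one_ne_zero)
      rwa [val_input (cir α m k L P f) x (inp a) a rfl] at this
    · rintro h (a | _ | _ | _ | _ | _ | _ | _ | _ | _ | _) hw
      · rw [val_input (cir α m k L P f) x (inp a) a rfl]
        apply h
        by_contra ha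
        apply hw
        show (if a ∈ T.1 then 1 else 0) = 0
        rw [if_neg ha]
      all_goals exact absurd rfl hw
  · rw [val_gate (cir α m k L P f) x (mof T) rfl]
    show (∑ q', if (cir α m k L P f).val x q' then (cir α m k L P f).wires (mof T) q' else 0) = 0
      ↔ _
    rw [sum_eq_zero_iff]
    constructor
    · intro h a ha hx
      have h1 := h (inp a) (mem_univ _)
      rw [if_pos ((val_input (cir α m k L P f) x (inp a) a rfl).2 hx)] at h1
      have h2 : (cir α m k L P f).wires (mof T) (inp a) = 1 := by
        show (if a ∈ T.1 then 1 else 0) = 1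
        rw [if_pos ha]
      rw [h2] at h1
      exact one_ne_zero h1
    · rintro h (a | _ | _ | _ | _ | _ | _ | _ | _ | _ | _) -
      · by_cases ha : a ∈ T.1
        · rw [if_neg]
          rw [val_input (cir α m k L P f) x (inp a) a rfl]
          exact h a ha
        · have h2 : (cir α m k L P f).wires (mof T) (inp a) = 0 := by
            show (if a ∈ T.1 then 1 else 0) = 0
            rw [if_neg ha]
          rw [h2]; simp
      all_goals exact ite_self _

end H688R2.Cla
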