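import Pool.Agent.H688R2.Cla.C6b

namespace H688R2.Cla

open Equiv Finset H688R2.Sym CG

theorem C5_holds' (h4 : C4) : C5 := by
  classical
  intro α _ m k L P f x p e c hp
  rw [val_gate (cir α m k L P f) x (dig p e c) rfl]
  show (if p.1 ∣ m then _ % p.1 = c.1 else True) ↔ _
  rw [if_pos hp]
  have hsum : (∑ q', if (cir α m k L P f).val x q' then (cir α m k L P f).wires (dig p e c) q'
      else 0) = (wgt x).choose e.1 := by
    have h1 : (∑ q', if (cir α m k L P f).val x q' then (cir α m k L P f).wires (dig p e c) q'
        else 0) = ∑ T : {T : Finset α // T.card ≤ k + L},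
          if T.1 ⊆ univ.filter x then (if T.1.card = e.1 then 1 else 0) else 0 := by
      have e1 : (∑ T : {T : Finset α // T.card ≤ k + L},
          if T.1 ⊆ univ.filter x then (if T.1.card = e.1 then 1 else 0) else 0)
          = ∑ q' ∈ (univ : Finset {T : Finset α // T.card ≤ k + L}).map
            ⟨fun T => (mon T : CG α m k L P), fun a b h => by injection h⟩,
            if (cir α m k L P f).val x q' then (cir α m k L P f).wires (dig p e c) q' else 0 := by
        rw [sum_map]
        apply sum_congr rfl
        intro T _
        have hv : (cir α m k L P f).val x (mon T) ↔ T.1 ⊆ univ.filter x := by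
          rw [(h4 α _ m k L P f x T).1]
          constructor
          · intro h a ha; simpa using h a ha
          · intro h a ha; simpa using h ha
        show _ = if (cir α m k L P f).val x (mon T) then (if T.1.card = e.1 then 1 else 0) else 0
        by_cases h : T.1 ⊆ univ.filter x
        · rw [if_pos h, if_pos (hv.2 h)]
        · rw [if_neg h, if_neg (mt hv.1 h)]
      rw [e1]
      symm
      apply sum_subset (subset_univ _)
      intro q' _ hq'
      rcases q' with _ | T | _ | _ | _ | _ | _ | _ | _ | _ | _
      · split_ifs <;> rfl
      · exact absurd (mem_map.2 ⟨T, mem_univ _, rfl⟩) hq'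
      all_goals split_ifs <;> rfl
    rw [h1, wgt_eq]
    have h2 : (∑ T : {T : Finset α // T.card ≤ k + L},
          if T.1 ⊆ univ.filter x then (if T.1.card = e.1 then 1 else 0) else 0)
        = ∑ T ∈ (univ : Finset (Finset α)).filter (fun T => T.card ≤ k + L),
          if T ⊆ univ.filter x then (if T.card = e.1 then 1 else 0) else 0 := by
      symm
      apply Finset.sum_subtype
      intro T; simp
    rw [h2, ← card_powersetCard, card_eq_sum_ones, ← sum_filter, ← sum_filter]
    apply sum_congr _ (fun _ _ => rfl)
    ext T
    simp only [mem_filter, mem_univ, true_and, mem_powersetCard]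
    constructor
    · rintro ⟨⟨-, h⟩, h'⟩; exact ⟨h, h'⟩
    · rintro ⟨h, h'⟩
      have := e.2
      exact ⟨⟨by omega, h⟩, h'⟩
  rw [hsum]

end H688R2.Cla
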