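import Pool.Agent.H688R2.Cla.Spec

/-!
# C6: thresholds
-/

namespace H688R2.Cla

open Equiv Finset H688R2.Sym CG

theorem C6_holds (h4 : C4) : C6 := by
  classical
  intro α _ m k L P f x j
  have hw : wgt x = (univ.filter fun a => x a).card := by
    unfold wgt
    rw [Nat.card_eq_fintype_card, Fintype.card_subtype]
  have hsum : (univ.filter fun a => x a).card + (univ.filter fun a => ¬ x a).card
      = Fintype.card α := by
    rw [← Finset.card_univ]
    exact Finset.card_filter_add_card_filter_not (s := (univ : Finset α)) (fun a => x a)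
  have hj : j.1 ≤ L := by have := j.2; omega
  constructor
  · rw [or_gate _ _ _ rfl rfl, hw, Finset.le_card_iff_exists_subset_card]
    constructor
    · rintro ⟨q', hq, hv⟩
      rcases q' with a | T | T | ⟨_, _, _⟩ | _ | _ | _ | _ | _ | _ | _
      on_goal 2 =>
        refine ⟨T.1, ?_, ?_⟩
        · intro a ha
          exact mem_filter.2 ⟨mem_univ _, (h4 α _ m k L P f x T).1.1 hv a ha⟩
        · by_contra hc
          apply hq
          show (if T.1.card = j.1 then 1 else 0) = 0
          rw [if_neg hc]
      all_goals exact absurd rfl hq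
    · rintro ⟨T, hT, hc⟩
      refine ⟨mon ⟨T, by omega⟩, ?_, ?_⟩
      · show (if T.card = j.1 then 1 else 0) ≠ 0
        rw [if_pos hc]; exact one_ne_zero
      · exact (h4 α _ m k L P f x ⟨T, by omega⟩).1.2
          fun a ha => (mem_filter.1 (hT ha)).2
  · have key : wgt x + j.1 ≤ Fintype.card α ↔ j.1 ≤ (univ.filter fun a => ¬ x a).card := by
      rw [hw]; omega
    rw [or_gate _ _ _ rfl rfl, key, Finset.le_card_iff_exists_subset_card]
    constructor
    · rintro ⟨q', hq, hv⟩
      rcases q' with a | T | T | ⟨_, _, _⟩ | _ | _ | _ | _ | _ | _ | _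
      on_goal 3 =>
        refine ⟨T.1, ?_, ?_⟩
        · intro a ha
          exact mem_filter.2 ⟨mem_univ _, (h4 α _ m k L P f x T).2.1 hv a ha⟩
        · by_contra hc
          apply hq
          show (if T.1.card = j.1 then 1 else 0) = 0
          rw [if_neg hc]
      all_goals exact absurd rfl hq
    · rintro ⟨T, hT, hc⟩
      refine ⟨mof ⟨T, by omega⟩, ?_, ?_⟩
      · show (if T.card = j.1 then 1 else 0) ≠ 0
        rw [if_pos hc]; exact one_ne_zero
      · exact (h4 α _ m k L P f x ⟨T, by omega⟩).2.2
          fun a ha => (mem_filter.1 (hT ha)).2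

end H688R2.Cla
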