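import Pool.Agent.H688R2.Cla.Spec

namespace H688R2.Cla

open Equiv Finset H688R2.Sym CG

theorem wgt_eq {α : Type} [Fintype α] (x : α → Prop) [DecidablePred x] :
    wgt x = (univ.filter x).card := by
  unfold wgt
  rw [Nat.card_eq_fintype_card, Fintype.card_subtype]

theorem C6_holds' (h4 : C4) : C6 := by
  classical
  intro α _ m k L P f x j
  have hj : j.1 ≤ L := Nat.lt_succ_iff.1 j.2
  constructor
  · rw [or_gate (cir α m k L P f) x (geT j) rfl rfl]
    constructor
    · rintro ⟨_ | T | _ | _ | _ | _ | _ | _ | _ | _ | _, hw, hv⟩
      case mon =>
        have hT : T.1.card = j.1 := by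
          by_contra hT
          apply hw
          show (if T.1.card = j.1 then 1 else 0) = 0
          rw [if_neg hT]
        rw [(h4 α _ m k L P f x T).1] at hv
        rw [wgt_eq, ← hT]
        apply card_le_card
        intro a ha
        simpa using hv a ha
      all_goals exact absurd rfl hw
    · intro h
      rw [wgt_eq] at h
      obtain ⟨T, hT, hc⟩ := exists_subset_card_eq h
      refine ⟨mon ⟨T, by omega⟩, ?_, ?_⟩
      · show (if T.card = j.1 then 1 else 0) ≠ 0
        rw [if_pos hc]; exact one_ne_zero
      · rw [(h4 α _ m k L P f x ⟨T, by omega⟩).1]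
        intro a ha
        simpa using hT ha
  · rw [or_gate (cir α m k L P f) x (geF j) rfl rfl]
    have hsum : wgt x + (univ.filter fun a => ¬ x a).card = Fintype.card α := by
      rw [wgt_eq, card_filter_add_card_filter_not, card_univ]
    constructor
    · rintro ⟨_ | _ | T | _ | _ | _ | _ | _ | _ | _ | _, hw, hv⟩
      case mof =>
        have hT : T.1.card = j.1 := by
          by_contra hT
          apply hw
          show (if T.1.card = j.1 then 1 else 0) = 0
          rw [if_neg hT]
        rw [(h4 α _ m k L P f x T).2] at hv
        have : T.1.card ≤ (univ.filter fun a => ¬ x a).card := by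
          apply card_le_card
          intro a ha
          simpa using hv a ha
        omega
      all_goals exact absurd rfl hw
    · intro h
      obtain ⟨T, hT, hc⟩ := exists_subset_card_eq
        (s := univ.filter fun a => ¬ x a) (n := j.1) (by omega)
      refine ⟨mof ⟨T, by omega⟩, ?_, ?_⟩
      · show (if T.card = j.1 then 1 else 0) ≠ 0
        rw [if_pos hc]; exact one_ne_zero
      · rw [(h4 α _ m k L P f x ⟨T, by omega⟩).2]
        intro a ha
        simpa using hT ha

end H688R2.Cla
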