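import Pool.Agent.H688R2.Cla.C6b

namespace H688R2.Cla

open Equiv Finset H688R2.Sym CG

/-- a gate that needs a true and a false child -/
theorem mix_gate {I Q : Type*} [Fintype Q] (D : Circuit I Q) (x : I → Prop) (q : Q)
    (hi : D.input q = none) (hg : D.gate q = fun a b => a ≠ 0 ∧ b ≠ 0) :
    D.val x q ↔ (∃ q', D.wires q q' ≠ 0 ∧ D.val x q') ∧
      ∃ q', D.wires q q' ≠ 0 ∧ ¬ D.val x q' := by
  classical
  rw [val_gate D x q hi, hg]
  show _ ≠ 0 ∧ _ ≠ 0 ↔ _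
  rw [ne_eq, ne_eq, sum_eq_zero_iff, sum_eq_zero_iff]
  refine and_congr ?_ ?_
  · constructor
    · intro h
      push Not at h
      obtain ⟨q', -, hq'⟩ := h
      refine ⟨q', ?_, ?_⟩
      · intro h0; apply hq'; rw [h0]; simp
      · by_contra hv; apply hq'; rw [if_neg hv]
    · rintro ⟨q', hw, hv⟩ h
      have := h q' (mem_univ _)
      rw [if_pos hv] at this
      exact hw this
  · constructor
    · intro h
      push Not at h
      obtain ⟨q', -, hq'⟩ := h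
      refine ⟨q', ?_, ?_⟩
      · intro h0; apply hq'; rw [h0]; simp
      · intro hv; apply hq'; rw [if_neg (not_not.2 hv)]
    · rintro ⟨q', hw, hv⟩ h
      have := h q' (mem_univ _)
      rw [if_pos hv] at this
      exact hw this

theorem C7_holds' (h6 : C6) : C7 := by
  classical
  intro α _ m k L P f x j
  have hj := j.2
  constructor
  · rw [mix_gate (cir α m k L P f) x (lo j) rfl rfl]
    have key : ∀ q', (cir α m k L P f).wires (lo j) q' ≠ 0 →
        ∃ i : Fin (L + 1), q' = geT i ∧ (i.1 = j.1 ∨ i.1 = j.1 + 1) := by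
      rintro (_ | _ | _ | _ | i | _ | _ | _ | _ | _ | _) hw
      case geT =>
        refine ⟨i, rfl, ?_⟩
        by_contra hc
        apply hw
        show (if i.1 = j.1 ∨ i.1 = j.1 + 1 then 1 else 0) = 0
        rw [if_neg hc]
      all_goals exact absurd rfl hw
    have key2 : ∀ i : Fin (L + 1), (i.1 = j.1 ∨ i.1 = j.1 + 1) →
        (cir α m k L P f).wires (lo j) (geT i) ≠ 0 := by
      intro i hi
      show (if i.1 = j.1 ∨ i.1 = j.1 + 1 then 1 else 0) ≠ 0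
      rw [if_pos hi]; exact one_ne_zero
    constructor
    · rintro ⟨⟨q₁, hw₁, hv₁⟩, ⟨q₂, hw₂, hv₂⟩⟩
      obtain ⟨i₁, rfl, h1⟩ := key q₁ hw₁
      obtain ⟨i₂, rfl, h2⟩ := key q₂ hw₂
      rw [(h6 α _ m k L P f x i₁).1] at hv₁
      rw [(h6 α _ m k L P f x i₂).1] at hv₂
      omega
    · intro h
      refine ⟨⟨geT ⟨j.1, by omega⟩, key2 _ (Or.inl rfl), ?_⟩,
        ⟨geT ⟨j.1 + 1, by omega⟩, key2 _ (Or.inr rfl), ?_⟩⟩
      · rw [(h6 α _ m k L P f x _).1]; show j.1 ≤ _; omega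
      · rw [(h6 α _ m k L P f x _).1]; show ¬ (j.1 + 1 ≤ _); omega
  · rw [mix_gate (cir α m k L P f) x (hi j) rfl rfl]
    have key : ∀ q', (cir α m k L P f).wires (hi j) q' ≠ 0 →
        ∃ i : Fin (L + 1), q' = geF i ∧ (i.1 = j.1 ∨ i.1 = j.1 + 1) := by
      rintro (_ | _ | _ | _ | _ | i | _ | _ | _ | _ | _) hw
      case geF =>
        refine ⟨i, rfl, ?_⟩
        by_contra hc
        apply hw
        show (if i.1 = j.1 ∨ i.1 = j.1 + 1 then 1 else 0) = 0
        rw [if_neg hc]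
      all_goals exact absurd rfl hw
    have key2 : ∀ i : Fin (L + 1), (i.1 = j.1 ∨ i.1 = j.1 + 1) →
        (cir α m k L P f).wires (hi j) (geF i) ≠ 0 := by
      intro i hi'
      show (if i.1 = j.1 ∨ i.1 = j.1 + 1 then 1 else 0) ≠ 0
      rw [if_pos hi']; exact one_ne_zero
    constructor
    · rintro ⟨⟨q₁, hw₁, hv₁⟩, ⟨q₂, hw₂, hv₂⟩⟩
      obtain ⟨i₁, rfl, h1⟩ := key q₁ hw₁
      obtain ⟨i₂, rfl, h2⟩ := key q₂ hw₂
      rw [(h6 α _ m k L P f x i₁).2] at hv₁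
      rw [(h6 α _ m k L P f x i₂).2] at hv₂
      omega
    · intro h
      refine ⟨⟨geF ⟨j.1, by omega⟩, key2 _ (Or.inl rfl), ?_⟩,
        ⟨geF ⟨j.1 + 1, by omega⟩, key2 _ (Or.inr rfl), ?_⟩⟩
      · rw [(h6 α _ m k L P f x _).2]; show _ + j.1 ≤ _; omega
      · rw [(h6 α _ m k L P f x _).2]; show ¬ (_ + (j.1 + 1) ≤ _); omega

end H688R2.Cla
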