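import Pool.Agent.H688R2.Cla.Spec

/-!
# C8: the residue gates
-/

namespace H688R2.Cla

open Equiv Finset H688R2.Sym CG

theorem c8_coprime (m k : ℕ) : (m.primeFactors : Set ℕ).Pairwise
    (Function.onFun Nat.Coprime fun p => p ^ (Nat.log p k + 1)) := by
  intro p hp q hq hpq
  exact Nat.Coprime.pow _ _ ((Nat.coprime_primes (Nat.prime_of_mem_primeFactors hp)
    (Nat.prime_of_mem_primeFactors hq)).2 hpq)

/-- congruence modulo all prime powers gives congruence modulo `upPer` -/
theorem c8_all (m k : ℕ) {w r : ℕ}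
    (h : ∀ p ∈ m.primeFactors, w ≡ r [MOD p ^ (Nat.log p k + 1)]) : w ≡ r [MOD upPer m k] := by
  have main : ∀ w j : ℕ, j ≤ w →
      (∀ p ∈ m.primeFactors, w ≡ j [MOD p ^ (Nat.log p k + 1)]) → w ≡ j [MOD upPer m k] := by
    intro w j hle hall
    have hd : (∏ p ∈ m.primeFactors, p ^ (Nat.log p k + 1)) ∣ w - j := by
      apply Finset.prod_dvd_of_isRelPrime
      · intro p hp q hq hpq
        exact Nat.coprime_iff_isRelPrime.1 (c8_coprime m k hp hq hpq)
      · intro p hp
        exact (Nat.modEq_iff_dvd' hle).1 (hall p hp).symm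
    exact ((Nat.modEq_iff_dvd' hle).2 hd).symm
  rcases le_total r w with hle | hle
  · exact main w r hle h
  · exact (main r w hle fun p hp => (h p hp).symm).symm

/-- the digit `g` of numbers congruent modulo `p ^ (g + 1)` -/
theorem c8_digit (p : ℕ) (g w r : ℕ) (h : w ≡ r [MOD p ^ (g + 1)]) :
    w / p ^ g ≡ r / p ^ g [MOD p] := by
  have e : ∀ z : ℕ, z % p ^ (g + 1) / p ^ g = z / p ^ g % p := by
    intro z
    rw [pow_succ, Nat.mod_mul_right_div_self]
  show w / p ^ g % p = r / p ^ g % p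
  rw [← e, ← e]
  rw [show w % p ^ (g + 1) = r % p ^ (g + 1) from h]

theorem C8_holds (h5 : C5) (hU : UPP) : C8 := by
  classical
  intro α _ m k L f x r hm hk
  obtain ⟨hpos, -, -⟩ := hU m k hm hk
  rw [and_gate _ _ _ rfl rfl]
  constructor
  · intro h
    have key : wgt x ≡ r.1 [MOD upPer m k] := by
      apply c8_all
      intro p hp
      have hpp := Nat.prime_of_mem_primeFactors hp
      have hpm : p ≤ m := Nat.le_of_dvd (Nat.pos_of_ne_zero hm) (Nat.dvd_of_mem_primeFactors hp)
      apply modEq_of_digits p hpp.pos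
      intro g hg
      have hle : p ^ g ≤ k := Nat.pow_le_of_le_log (by omega) hg
      have hmod : r.1.choose (p ^ g) % p < p := Nat.mod_lt _ hpp.pos
      have h1 := h (dig ⟨p, by omega⟩ ⟨p ^ g, by omega⟩ ⟨r.1.choose (p ^ g) % p, by omega⟩) (by
        show (if p ∈ m.primeFactors ∧ (∃ g', p ^ g = p ^ g') ∧
          r.1.choose (p ^ g) % p = r.1.choose (p ^ g) % p then 1 else 0) ≠ 0
        rw [if_pos ⟨hp, ⟨g, rfl⟩, rfl⟩]
        exact one_ne_zero)
      rw [h5 α _ m k L (upPer m k) f x _ _ _ (Nat.dvd_of_mem_primeFactors hp)] at h1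
      exact ((choose_pow_modEq p hpp g (wgt x)).symm.trans h1).trans
        (choose_pow_modEq p hpp g r.1)
    have h2 : wgt x % upPer m k = r.1 % upPer m k := key
    rw [h2, Nat.mod_eq_of_lt r.2]
  · intro h q' hw
    rcases q' with _ | _ | _ | ⟨p, e, c⟩ | _ | _ | _ | _ | _ | _ | _
    · exact absurd rfl hw
    · exact absurd rfl hw
    · exact absurd rfl hw
    · have hc : p.1 ∈ m.primeFactors ∧ (∃ g, e.1 = p.1 ^ g) ∧ r.1.choose e.1 % p.1 = c.1 := by
        by_contra hc
        apply hw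
        show (if p.1 ∈ m.primeFactors ∧ (∃ g, e.1 = p.1 ^ g) ∧
          r.1.choose e.1 % p.1 = c.1 then 1 else 0) = 0
        rw [if_neg hc]
      obtain ⟨hp, ⟨g, hg⟩, hcc⟩ := hc
      have hpp := Nat.prime_of_mem_primeFactors hp
      rw [h5 α _ m k L (upPer m k) f x _ _ _ (Nat.dvd_of_mem_primeFactors hp), ← hcc, hg]
      have hle : p.1 ^ g ≤ k := by rw [← hg]; have := e.2; omega
      have hgl : g ≤ Nat.log p.1 k := Nat.le_log_of_pow_le hpp.one_lt hle
      have key : wgt x ≡ r.1 [MOD upPer m k] := by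
        show wgt x % upPer m k = r.1 % upPer m k
        rw [h, Nat.mod_eq_of_lt r.2]
      have hd1 : p.1 ^ (g + 1) ∣ upPer m k :=
        (pow_dvd_pow p.1 (by omega)).trans (Finset.dvd_prod_of_mem _ hp)
      have key2 : wgt x ≡ r.1 [MOD p.1 ^ (g + 1)] := key.of_dvd hd1
      exact ((choose_pow_modEq p.1 hpp g (wgt x)).trans (c8_digit p.1 g _ _ key2)).trans
        (choose_pow_modEq p.1 hpp g r.1).symm
    all_goals exact absurd rfl hw

end H688R2.Cla
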