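import Pool.Agent.H688R2.Cla.Spec

namespace H688R2.Cla

open Equiv Finset H688R2.Sym CG

theorem C8_holds' (h5 : C5) (hU : UPP) : C8 := by
  classical
  intro α _ m k L f x r hm hk
  have hP := (hU m k hm hk).1
  rw [and_gate (cir α m k L (upPer m k) f) x (eqn r) rfl rfl]
  constructor
  · intro h
    have key : ∀ p ∈ m.primeFactors, wgt x ≡ r.1 [MOD p ^ (Nat.log p k + 1)] := by
      intro p hp
      have hpp := Nat.prime_of_mem_primeFactors hp
      apply modEq_of_digits p hpp.pos
      intro e he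
      have hle : p ^ e ≤ k := Nat.pow_le_of_le_log (by omega) he
      have hpm : p ≤ m := Nat.le_of_dvd (Nat.pos_of_ne_zero hm) (Nat.dvd_of_mem_primeFactors hp)
      have hmod : r.1.choose (p ^ e) % p < p := Nat.mod_lt _ hpp.pos
      have := h (dig ⟨p, by omega⟩ ⟨p ^ e, by omega⟩ ⟨r.1.choose (p ^ e) % p, by omega⟩) (by
        show (if p ∈ m.primeFactors ∧ (∃ g, p ^ e = p ^ g) ∧
          r.1.choose (p ^ e) % p = r.1.choose (p ^ e) % p then 1 else 0) ≠ 0
        rw [if_pos ⟨hp, ⟨e, rfl⟩, rfl⟩]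
        exact one_ne_zero)
      rw [h5 α _ m k L (upPer m k) f x _ _ _ (Nat.dvd_of_mem_primeFactors hp)] at this
      exact ((choose_pow_modEq p hpp e (wgt x)).symm.trans this).trans
        (choose_pow_modEq p hpp e r.1)
    have hcop : (m.primeFactors : Set ℕ).Pairwise
        (Function.onFun Nat.Coprime fun p => p ^ (Nat.log p k + 1)) := by
      intro p hp q hq hpq
      exact Nat.Coprime.pow _ _ ((Nat.coprime_primes (Nat.prime_of_mem_primeFactors hp)
        (Nat.prime_of_mem_primeFactors hq)).2 hpq)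
    have main : ∀ w j : ℕ, j ≤ w →
        (∀ p ∈ m.primeFactors, w ≡ j [MOD p ^ (Nat.log p k + 1)]) → w ≡ j [MOD upPer m k] := by
      intro w j hle hall
      refine ((Nat.modEq_iff_dvd' hle).2 ?_).symm
      apply Finset.prod_dvd_of_isRelPrime
      · intro p hp q hq hpq
        exact Nat.coprime_iff_isRelPrime.1 (hcop hp hq hpq)
      · intro p hp
        exact (Nat.modEq_iff_dvd' hle).1 (hall p hp).symm
    have hmod : wgt x ≡ r.1 [MOD upPer m k] := by
      rcases le_total r.1 (wgt x) with hle | hle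
      · exact main _ _ hle key
      · exact (main _ _ hle fun p hp => (key p hp).symm).symm
    rw [hmod, Nat.mod_eq_of_lt r.2]
  · rintro h (_ | _ | _ | ⟨p, e, c⟩ | _ | _ | _ | _ | _ | _ | _) hw
    case dig =>
      have hc : p.1 ∈ m.primeFactors ∧ (∃ g, e.1 = p.1 ^ g) ∧ r.1.choose e.1 % p.1 = c.1 := by
        by_contra hc
        apply hw
        show (if p.1 ∈ m.primeFactors ∧ (∃ g, e.1 = p.1 ^ g) ∧
          r.1.choose e.1 % p.1 = c.1 then 1 else 0) = 0
        rw [if_neg hc]
      rw [h5 α _ m k L (upPer m k) f x _ _ _ (Nat.dvd_of_mem_primeFactors hc.1), ← hc.2.2]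
      obtain ⟨g, hg⟩ := hc.2.1
      have hpp := Nat.prime_of_mem_primeFactors hc.1
      rw [hg]
      have hgk : g ≤ Nat.log p.1 k := by
        apply Nat.le_log_of_pow_le hpp.one_lt
        have := e.2
        omega
      have hwr : wgt x ≡ r.1 [MOD p.1 ^ (g + 1)] := by
        have h1 : wgt x ≡ r.1 [MOD upPer m k] := by
          show wgt x % _ = r.1 % _
          rw [h, Nat.mod_eq_of_lt r.2]
        apply h1.of_dvd
        exact (pow_dvd_pow p.1 (by omega)).trans (Finset.dvd_prod_of_mem _ hc.1)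
      have hdiv : wgt x / p.1 ^ g ≡ r.1 / p.1 ^ g [MOD p.1] := by
        have e1 : ∀ w : ℕ, w / p.1 ^ g % p.1 = w % p.1 ^ (g + 1) / p.1 ^ g := by
          intro w
          rw [pow_succ, Nat.mod_mul_right_div_self]
        show _ % _ = _ % _
        rw [e1, e1, hwr]
      exact ((choose_pow_modEq p.1 hpp g (wgt x)).trans hdiv).trans
        (choose_pow_modEq p.1 hpp g r.1).symm
    all_goals exact absurd rfl hw

end H688R2.Cla
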