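import Pool.Agent.H688R2.Cla.Spec

/-!
# C9: the output of the symmetric circuit
-/

namespace H688R2.Cla

open Equiv Finset H688R2.Sym CG

namespace C9Aux

variable {α : Type} [Fintype α] {m k L : ℕ} {f : ℕ → Prop}

theorem v_mid (h6 : C6) (h8 : C8) (x : α → Prop) (hm : m ≠ 0) (hk : 1 ≤ k)
    (r : Fin (upPer m k)) :
    (cir α m k L (upPer m k) f).val x (mid r) ↔
      L ≤ wgt x ∧ wgt x + L ≤ Fintype.card α ∧ wgt x % upPer m k = r.1 := by
  classical
  rw [and_gate _ _ _ rfl rfl]
  constructor
  · intro h
    refine ⟨?_, ?_, ?_⟩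
    · have := h (geT (Fin.last L)) (by
        show (if (Fin.last L).1 = L then 1 else 0) ≠ 0
        simp)
      exact ((h6 α _ m k L (upPer m k) f x (Fin.last L)).1).1 this
    · have := h (geF (Fin.last L)) (by
        show (if (Fin.last L).1 = L then 1 else 0) ≠ 0
        simp)
      exact ((h6 α _ m k L (upPer m k) f x (Fin.last L)).2).1 this
    · have := h (eqn r) (by
        show (if r = r then 1 else 0) ≠ 0
        simp)
      exact (h8 α _ m k L f x r hm hk).1 this
  · rintro ⟨h1, h2, h3⟩ q' hw
    rcases q' with _ | _ | _ | _ | i | i | _ | _ | r' | _ | _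
    · exact absurd rfl hw
    · exact absurd rfl hw
    · exact absurd rfl hw
    · exact absurd rfl hw
    · have hi : i.1 = L := by
        by_contra hne
        apply hw
        show (if i.1 = L then 1 else 0) = 0
        rw [if_neg hne]
      exact ((h6 α _ m k L (upPer m k) f x i).1).2 (by rw [hi]; exact h1)
    · have hi : i.1 = L := by
        by_contra hne
        apply hw
        show (if i.1 = L then 1 else 0) = 0
        rw [if_neg hne]
      exact ((h6 α _ m k L (upPer m k) f x i).2).2 (by rw [hi]; exact h2)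
    · exact absurd rfl hw
    · exact absurd rfl hw
    · have hr : r = r' := by
        by_contra hne
        apply hw
        show (if r = r' then 1 else 0) = 0
        rw [if_neg hne]
      subst hr
      exact (h8 α _ m k L f x r hm hk).2 h3
    · exact absurd rfl hw
    · exact absurd rfl hw

end C9Aux

open C9Aux

theorem C9_holds (h6 : C6) (h7 : C7) (h8 : C8) (hU : UPP) : C9 := by
  classical
  intro α _ m k L f hm hk hper x
  have hP : 0 < upPer m k := (hU m k hm hk).1
  have hwn : wgt x ≤ Fintype.card α := by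
    unfold wgt
    rw [Nat.card_eq_fintype_card]
    exact Fintype.card_subtype_le _
  show (cir α m k L (upPer m k) f).val x top ↔ f (wgt x)
  rw [or_gate _ _ _ rfl rfl]
  constructor
  · rintro ⟨q', hw, hv⟩
    rcases q' with _ | _ | _ | _ | _ | _ | j | j | _ | r | _
    · exact absurd rfl hw
    · exact absurd rfl hw
    · exact absurd rfl hw
    · exact absurd rfl hw
    · exact absurd rfl hw
    · exact absurd rfl hw
    · have hf : f j.1 := by
        by_contra hne
        apply hw
        show (if f j.1 then 1 else 0) = 0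
        rw [if_neg hne]
      rw [((h7 α _ m k L (upPer m k) f x j).1).1 hv]
      exact hf
    · have hf : f (Fintype.card α - j.1) := by
        by_contra hne
        apply hw
        show (if f (Fintype.card α - j.1) then 1 else 0) = 0
        rw [if_neg hne]
      have h1 := ((h7 α _ m k L (upPer m k) f x j).2).1 hv
      have h2 : wgt x = Fintype.card α - j.1 := by omega
      rw [h2]
      exact hf
    · exact absurd rfl hw
    · have hf : ∃ w, L ≤ w ∧ w + L ≤ Fintype.card α ∧ w % upPer m k = r.1 ∧ f w := by
        by_contra hne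
        apply hw
        show (if ∃ w, L ≤ w ∧ w + L ≤ Fintype.card α ∧ w % upPer m k = r.1 ∧ f w then 1 else 0) = 0
        rw [if_neg hne]
      obtain ⟨w, hw1, hw2, hw3, hw4⟩ := hf
      obtain ⟨h1, h2, h3⟩ := (v_mid h6 h8 x hm hk r).1 hv
      exact (hper (wgt x) w h1 h2 hw1 hw2 (h3.trans hw3.symm)).2 hw4
    · exact absurd rfl hw
  · intro hf
    rcases Nat.lt_or_ge (wgt x) L with h1 | h1
    · refine ⟨lo ⟨wgt x, h1⟩, ?_, ((h7 α _ m k L (upPer m k) f x ⟨wgt x, h1⟩).1).2 rfl⟩
      show (if f (wgt x) then 1 else 0) ≠ 0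
      rw [if_pos hf]; exact one_ne_zero
    · rcases Nat.lt_or_ge (Fintype.card α) (wgt x + L) with h2 | h2
      · have h3 : Fintype.card α - wgt x < L := by omega
        refine ⟨hi ⟨Fintype.card α - wgt x, h3⟩, ?_,
          ((h7 α _ m k L (upPer m k) f x ⟨Fintype.card α - wgt x, h3⟩).2).2 ?_⟩
        · show (if f (Fintype.card α - (Fintype.card α - wgt x)) then 1 else 0) ≠ 0
          have h4 : Fintype.card α - (Fintype.card α - wgt x) = wgt x := by omega
          rw [h4, if_pos hf]; exact one_ne_zero
        · show wgt x + (Fintype.card α - wgt x) = Fintype.card α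
          omega
      · have hr : wgt x % upPer m k < upPer m k := Nat.mod_lt _ hP
        refine ⟨mid ⟨wgt x % upPer m k, hr⟩, ?_, (v_mid h6 h8 x hm hk _).2 ⟨h1, h2, rfl⟩⟩
        show (if ∃ w, L ≤ w ∧ w + L ≤ Fintype.card α ∧ w % upPer m k = wgt x % upPer m k ∧ f w
          then 1 else 0) ≠ 0
        rw [if_pos ⟨wgt x, h1, h2, rfl, hf⟩]; exact one_ne_zero

end H688R2.Cla
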