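import Pool.Agent.H688R2.Cla.Spec

namespace H688R2.Cla

open Equiv Finset H688R2.Sym CG

theorem wgt_le {α : Type} [Fintype α] (x : α → Prop) : wgt x ≤ Fintype.card α := by
  classical
  unfold wgt
  rw [Nat.card_eq_fintype_card]
  exact Fintype.card_subtype_le _

theorem C9_holds' (h6 : C6) (h7 : C7) (h8 : C8) (hU : UPP) : C9 := by
  classical
  intro α _ m k L f hm hk hf x
  have hP := (hU m k hm hk).1
  have hw := wgt_le x
  set P := upPer m k with hPdef
  have hmid : ∀ r : Fin P, (cir α m k L P f).val x (mid r) ↔
      L ≤ wgt x ∧ wgt x + L ≤ Fintype.card α ∧ wgt x % P = r.1 := by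
    intro r
    rw [and_gate (cir α m k L P f) x (mid r) rfl rfl]
    constructor
    · intro h
      refine ⟨?_, ?_, ?_⟩
      · have := h (geT ⟨L, by omega⟩) (by
          show (if (L : ℕ) = L then 1 else 0) ≠ 0
          rw [if_pos rfl]; exact one_ne_zero)
        rwa [(h6 α _ m k L P f x _).1] at this
      · have := h (geF ⟨L, by omega⟩) (by
          show (if (L : ℕ) = L then 1 else 0) ≠ 0
          rw [if_pos rfl]; exact one_ne_zero)
        rwa [(h6 α _ m k L P f x _).2] at this
      · have := h (eqn r) (by
          show (if r = r then 1 else 0) ≠ 0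
          rw [if_pos rfl]; exact one_ne_zero)
        rwa [h8 α _ m k L f x r hm hk] at this
    · rintro ⟨h1, h2, h3⟩ (_ | _ | _ | _ | i | i | _ | _ | r' | _ | _) hw'
      case geT =>
        have hi : i.1 = L := by
          by_contra hc
          apply hw'
          show (if i.1 = L then 1 else 0) = 0
          rw [if_neg hc]
        rw [(h6 α _ m k L P f x i).1, hi]; exact h1
      case geF =>
        have hi : i.1 = L := by
          by_contra hc
          apply hw'
          show (if i.1 = L then 1 else 0) = 0
          rw [if_neg hc]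
        rw [(h6 α _ m k L P f x i).2, hi]; exact h2
      case eqn =>
        have hi : r = r' := by
          by_contra hc
          apply hw'
          show (if r = r' then 1 else 0) = 0
          rw [if_neg hc]
        rw [h8 α _ m k L f x r' hm hk, ← hi]; exact h3
      all_goals exact absurd rfl hw'
  show (cir α m k L P f).val x top ↔ f (wgt x)
  rw [or_gate (cir α m k L P f) x top rfl rfl]
  constructor
  · rintro ⟨_ | _ | _ | _ | _ | _ | j | j | _ | r | _, hw', hv⟩
    case lo =>
      have hc : f j.1 := by
        by_contra hc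
        apply hw'
        show (if f j.1 then 1 else 0) = 0
        rw [if_neg hc]
      rw [(h7 α _ m k L P f x j).1] at hv
      rw [hv]; exact hc
    case hi =>
      have hc : f (Fintype.card α - j.1) := by
        by_contra hc
        apply hw'
        show (if f (Fintype.card α - j.1) then 1 else 0) = 0
        rw [if_neg hc]
      rw [(h7 α _ m k L P f x j).2] at hv
      have : Fintype.card α - j.1 = wgt x := by omega
      rw [this] at hc; exact hc
    case mid =>
      have hc : ∃ w, L ≤ w ∧ w + L ≤ Fintype.card α ∧ w % P = r.1 ∧ f w := by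
        by_contra hc
        apply hw'
        show (if ∃ w, L ≤ w ∧ w + L ≤ Fintype.card α ∧ w % P = r.1 ∧ f w then 1 else 0) = 0
        rw [if_neg hc]
      obtain ⟨w, a1, a2, a3, a4⟩ := hc
      obtain ⟨b1, b2, b3⟩ := (hmid r).1 hv
      exact (hf w (wgt x) a1 a2 b1 b2 (by show w % P = wgt x % P; rw [a3, b3])).1 a4
    all_goals exact absurd rfl hw'
  · intro h
    by_cases h1 : wgt x < L
    · refine ⟨lo ⟨wgt x, h1⟩, ?_, (h7 α _ m k L P f x _).1.2 rfl⟩
      show (if f (wgt x) then 1 else 0) ≠ 0
      rw [if_pos h]; exact one_ne_zero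
    by_cases h2 : Fintype.card α < wgt x + L
    · refine ⟨hi ⟨Fintype.card α - wgt x, by omega⟩, ?_, (h7 α _ m k L P f x _).2.2 ?_⟩
      · show (if f (Fintype.card α - (Fintype.card α - wgt x)) then 1 else 0) ≠ 0
        have : Fintype.card α - (Fintype.card α - wgt x) = wgt x := by omega
        rw [this, if_pos h]; exact one_ne_zero
      · show wgt x + (Fintype.card α - wgt x) = _
        omega
    · refine ⟨mid ⟨wgt x % P, Nat.mod_lt _ hP⟩, ?_, (hmid _).2 ⟨by omega, by omega, rfl⟩⟩
      show (if ∃ w, L ≤ w ∧ w + L ≤ Fintype.card α ∧ w % P = wgt x % P ∧ f w then 1 else 0) ≠ 0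
      rw [if_pos ⟨wgt x, by omega, by omega, rfl, h⟩]; exact one_ne_zero

end H688R2.Cla
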