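import Pool.Agent.H688R2.Cla.Spec
import Pool.Agent.H688R2.Sym.Maj

/-!
# Symmetric circuits compute functions of the weight that are periodic in the middle
-/

namespace H688R2.Cla

open Equiv Finset H688R2.Sym

/-- an input that has a small support is in its support -/
theorem mem_sup_self {α : Type*} [DecidableEq α] [Fintype α] (i : α) {k : ℕ}
    (hi : (sup i : Finset α).card ≤ k) (hs : IsSup (sup i : Finset α) i)
    (hK : k + 3 ≤ Fintype.card α) : i ∈ (sup i : Finset α) := by
  by_contra h
  have h1 : 1 < ((insert i (sup i : Finset α))ᶜ).card := by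
    rw [card_compl, card_insert_of_notMem h]
    omega
  obtain ⟨a, ha, b, hb, hab⟩ := one_lt_card.1 h1
  rw [mem_compl, mem_insert, not_or] at ha hb
  have h2 := hs (swap i a * swap a b) (by
    rw [Perm.sign_mul, Perm.sign_swap (Ne.symm ha.1), Perm.sign_swap hab]
    simp) (by
    intro x hx
    have hxa : x ≠ a := by rintro rfl; exact ha.2 hx
    have hxb : x ≠ b := by rintro rfl; exact hb.2 hx
    have hxi : x ≠ i := by rintro rfl; exact h hx
    rw [Perm.mul_apply, swap_apply_of_ne_of_ne hxa hxb, swap_apply_of_ne_of_ne hxi hxa])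
  rw [Perm.smul_def, Perm.mul_apply, swap_apply_of_ne_of_ne (Ne.symm ha.1) (Ne.symm hb.1),
    swap_apply_left] at h2
  exact ha.1 h2

theorem wgt_finset {α : Type*} [DecidableEq α] [Fintype α] (y : Finset α) :
    wgt (fun i => i ∈ y) = y.card := by
  unfold wgt
  rw [Nat.card_eq_fintype_card, Fintype.card_coe]

theorem exists_finset {α : Type*} [Fintype α] (x : α → Prop) :
    ∃ y : Finset α, (fun i => i ∈ y) = x := by
  classical
  refine ⟨univ.filter x, ?_⟩
  funext i
  simp

theorem D1_holds : D1 := by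
  intro m t k α Q _ _ _ C F hm hk1 hC hG hF hQ hb
  classical
  have b1 : 16 * (k + 1) * (k + 1) ≤ Fintype.card α :=
    (Nat.le_mul_of_pos_right _ (by omega)).trans hb
  have b2 : 2 * k + 3 ≤ Fintype.card α := by nlinarith
  have hk : ∀ q : Q, (sup q : Finset α).card ≤ k ∧ IsSup (sup q : Finset α) q :=
    fun q => small_sup hk1 hQ hb q
  have hself : ∀ q i, C.input q = some i → i ∈ (sup q : Finset α) := by
    intro q i hi
    have h := sup_input hC hk b2 hi
    exact h.1 (mem_sup_self i ((card_le_card h.1).trans (hk q).1) h.2 (by omega))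
  let x : Finset α → α → Prop := fun y i => i ∈ y
  have hout : (sup C.out : Finset α) = ∅ := by
    have h1 : IsSup (∅ : Finset α) C.out := fun h _ _ => hC.out h
    have h2 := sup_subset h1 (by simp; omega)
    exact subset_empty.1 h2
  have hxe : ∀ h : Perm α, ∀ y i, x (y.map h.toEmbedding) (h • i) ↔ x y i := by
    intro h y i
    show h i ∈ y.map h.toEmbedding ↔ i ∈ y
    exact mem_map' h.toEmbedding
  have hper : ∀ y y' : Finset α, Mid (2 * k + t + 1) y → Mid (2 * k + t + 1) y' →
      y.card ≡ y'.card [MOD per m k] → (F (x y) ↔ F (x y')) := by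
    intro y y' hy hy' hyy
    rw [← hF, ← hF]
    exact val_periodic C hC hm hG hk x (fun h _ y i => hxe h y i)
      (fun q i hi y y' hag => hag i (hself q i hi)) _ C.out rfl y y' hy hy' hyy
      (by rw [hout]; simp)
  have hsym : ∀ y y' : Finset α, y.card = y'.card → (F (x y) ↔ F (x y')) := by
    intro y y' h
    obtain ⟨π, rfl⟩ := exists_map h
    rw [← hF, ← hF]
    have := val_smul C hC π (x y) (x (y.map π.toEmbedding)) (fun i => hxe π y i) _ C.out rfl
    rw [hC.out π] at this
    exact this.symm
  refine ⟨fun w => ∃ y : Finset α, y.card = w ∧ F (x y), ?_, ?_⟩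
  · intro z
    obtain ⟨y, rfl⟩ := exists_finset z
    rw [wgt_finset]
    constructor
    · intro h
      exact ⟨y, rfl, h⟩
    · rintro ⟨y', h1, h2⟩
      exact (hsym y' y h1).1 h2
  · intro w w' h1 h2 h3 h4 hww
    obtain ⟨y, -, hy⟩ := exists_subset_card_eq (s := (univ : Finset α)) (n := w) (by
      rw [card_univ]; omega)
    obtain ⟨y', -, hy'⟩ := exists_subset_card_eq (s := (univ : Finset α)) (n := w') (by
      rw [card_univ]; omega)
    have h5 := hper y y' ⟨by rw [hy]; exact h1, by rw [hy]; exact h2⟩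
      ⟨by rw [hy']; exact h3, by rw [hy']; exact h4⟩ (by rw [hy, hy']; exact hww)
    constructor
    · rintro ⟨z, hz, hz'⟩
      exact ⟨y', hy', h5.1 ((hsym z y (by rw [hz, hy])).1 hz')⟩
    · rintro ⟨z, hz, hz'⟩
      exact ⟨y, hy, h5.2 ((hsym z y' (by rw [hz, hy'])).1 hz')⟩

end H688R2.Cla
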