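import Pool.Agent.H688R2.Cla.Spec

namespace H688R2.Cla

open Equiv Finset H688R2.Sym

theorem D1_holds' : D1 := by
  classical
  intro m t k α Q _ _ _ C F hm hk1 hC hG hF hQ hK
  have hk : ∀ q : Q, (sup q : Finset α).card ≤ k ∧ IsSup (sup q : Finset α) q :=
    fun q => small_sup hk1 hQ hK q
  have hn : 16 * (k + 1) * (k + 1) ≤ Fintype.card α := by
    have : 16 * (k + 1) * (k + 1) ≤
        16 * (k + 1) * (k + 1) * (Nat.log 2 (Fintype.card α) + 1) :=
      Nat.le_mul_of_pos_right _ (by omega)
    omega
  have hn2 : 16 * (k + 1) ≤ Fintype.card α := by nlinarith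
  have hin : ∀ (q : Q) (i : α), C.input q = some i → i ∈ (sup q : Finset α) := by
    intro q i hi
    have h1 : IsSup (sup q : Finset α) i := by
      intro h hs hfix
      have h2 := hC.input h q
      rw [(hk q).2 h hs hfix, hi] at h2
      simpa using h2.symm
    by_contra hni
    have hc1 : (insert i (sup q : Finset α)).card ≤ k + 1 :=
      (card_insert_le _ _).trans (Nat.add_le_add_right (hk q).1 1)
    have hc2 : 2 ≤ ((insert i (sup q : Finset α))ᶜ).card := by
      rw [card_compl]; omega
    obtain ⟨a, ha, b, hb, hab⟩ := one_lt_card.1 hc2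
    have hai : a ≠ i ∧ a ∉ (sup q : Finset α) := by simpa [mem_compl] using ha
    have hbi : b ≠ i ∧ b ∉ (sup q : Finset α) := by simpa [mem_compl] using hb
    have hs : Perm.sign (swap i a * swap a b) = 1 := by
      rw [Perm.sign_mul, Perm.sign_swap hai.1.symm, Perm.sign_swap hab]; rfl
    have hfix : ∀ x ∈ (sup q : Finset α), (swap i a * swap a b) x = x := by
      intro x hx
      have hxi : x ≠ i := fun h => hni (h ▸ hx)
      have hxa : x ≠ a := fun h => hai.2 (h ▸ hx)
      have hxb : x ≠ b := fun h => hbi.2 (h ▸ hx)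
      rw [Perm.mul_apply, swap_apply_of_ne_of_ne hxa hxb, swap_apply_of_ne_of_ne hxi hxa]
    have h3 := h1 _ hs hfix
    rw [Perm.smul_def, Perm.mul_apply, swap_apply_of_ne_of_ne hai.1.symm hbi.1.symm,
      swap_apply_left] at h3
    exact hai.1 h3
  have hout : (sup C.out : Finset α) = ∅ := by
    have h0 : IsSup (∅ : Finset α) C.out := fun π _ _ => hC.out π
    exact subset_empty.1 (sup_subset h0 (by simp only [card_empty]; omega))
  have hFx : ∀ y : Finset α, F (fun i => i ∈ y) ↔ C.val (fun i => i ∈ y) C.out :=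
    fun y => (hF _).symm
  have hper : ∀ y y' : Finset α, Mid (2 * k + t + 1) y → Mid (2 * k + t + 1) y' →
      y.card ≡ y'.card [MOD per m k] → (F (fun i => i ∈ y) ↔ F (fun i => i ∈ y')) := by
    intro y y' h1 h2 h3
    rw [hFx, hFx]
    refine val_periodic C hC hm hG hk (fun (y : Finset α) (i : α) => i ∈ y) ?_ ?_ _ C.out rfl
      y y' h1 h2 h3 ?_
    · intro h _ y i
      show h i ∈ y.map h.toEmbedding ↔ i ∈ y
      exact mem_map' h.toEmbedding
    · intro q i hi y y' hag
      exact hag i (hin q i hi)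
    · rw [hout]; intro a ha; simp at ha
  have hsym : ∀ y y' : Finset α, y.card = y'.card →
      (F (fun i => i ∈ y) ↔ F (fun i => i ∈ y')) := by
    intro y y' h
    obtain ⟨π, hπ⟩ : ∃ π : Perm α, y.map π.toEmbedding = y' := by
      have e1 : Fintype.card {a // a ∈ y} = Fintype.card {a // a ∈ y'} := by
        simpa using h
      let e := (Fintype.equivOfCardEq e1).extendSubtype
      refine ⟨e, ?_⟩
      ext b
      rw [mem_map]
      constructor
      · rintro ⟨a, ha, rfl⟩
        exact (Fintype.equivOfCardEq e1).extendSubtype_mem a ha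
      · intro hb
        refine ⟨e.symm b, ?_, by simp⟩
        by_contra hna
        have := (Fintype.equivOfCardEq e1).extendSubtype_not_mem (e.symm b) hna
        apply this
        have h5 : (Fintype.equivOfCardEq e1).extendSubtype (e.symm b) = b := by
          show e (e.symm b) = b
          simp
        rw [h5]; exact hb
    rw [hFx, hFx]
    have h2 := val_smul C hC π (fun i => i ∈ y) (fun i => i ∈ y') (by
      intro i
      show π i ∈ y' ↔ i ∈ y
      rw [← hπ]
      exact mem_map' π.toEmbedding) _ C.out rfl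
    rw [hC.out π] at h2
    exact h2.symm
  have hw : ∀ y : Finset α, wgt (fun i => i ∈ y) = y.card := by
    intro y
    unfold wgt
    rw [Nat.card_eq_fintype_card, Fintype.card_coe]
  refine ⟨fun w => ∃ y : Finset α, y.card = w ∧ F (fun i => i ∈ y), ?_, ?_⟩
  · intro x
    have hx : (fun i => i ∈ univ.filter x) = x := by
      funext i; simp
    constructor
    · intro h
      refine ⟨univ.filter x, ?_, by rw [hx]; exact h⟩
      rw [← hw, hx]
    · rintro ⟨y, hy, h⟩
      rw [← hx]
      refine (hsym y _ ?_).1 h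
      rw [hy, ← hw, hx]
  · have half : ∀ w w' : ℕ, 2 * k + t + 1 ≤ w → w + (2 * k + t + 1) ≤ Fintype.card α →
        2 * k + t + 1 ≤ w' → w' + (2 * k + t + 1) ≤ Fintype.card α → w ≡ w' [MOD per m k] →
        (∃ y : Finset α, y.card = w ∧ F (fun i => i ∈ y)) →
        ∃ y : Finset α, y.card = w' ∧ F (fun i => i ∈ y) := by
      rintro w w' h1 h2 h3 h4 h5 ⟨y, rfl, hy⟩
      obtain ⟨y', -, hy'⟩ := exists_subset_card_eq (s := (univ : Finset α)) (n := w')
        (by rw [card_univ]; omega)
      refine ⟨y', hy', (hper y y' ⟨h1, h2⟩ ⟨by omega, by omega⟩ ?_).1 hy⟩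
      rw [hy']; exact h5
    intro w w' h1 h2 h3 h4 h5
    exact ⟨half w w' h1 h2 h3 h4 h5, half w' w h3 h4 h1 h2 h5.symm⟩

end H688R2.Cla
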