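import Pool.Agent.H688R2.Cla.Spec

namespace H688R2.Cla

open Equiv Finset H688R2.Sym

namespace D2aux

theorem exists_wgt {n w : ℕ} (h : w ≤ n) : ∃ x : Fin n → Prop, wgt x = w := by
  classical
  obtain ⟨s, -, hs⟩ := Finset.exists_subset_card_eq (s := (Finset.univ : Finset (Fin n)))
    (n := w) (by rw [Finset.card_univ, Fintype.card_fin]; exact h)
  refine ⟨fun i => i ∈ s, ?_⟩
  unfold wgt
  rw [Nat.card_eq_fintype_card, Fintype.card_coe, hs]

theorem mono {f : ℕ → Prop} {n L L' P : ℕ} (hL : L ≤ L') (h : MidPeriodic f n L P) :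
    MidPeriodic f n L' P := by
  intro w w' h1 h2 h3 h4 h5
  exact h w w' (by omega) (by omega) (by omega) (by omega) h5

theorem main (h1 : D1) {f : ℕ → ℕ → Prop} {m n k S : ℕ} (hm : m ≠ 0) (hk : 1 ≤ k)
    (hS : S ^ 2 ≤ n ^ k) (hn : 16 * (k + 1) * (k + 1) * (Nat.log 2 n + 1) ≤ n)
    (h : ∃ (Q : Type) (_ : Fintype Q) (_ : MulAction (Perm (Fin n)) Q)
      (C : Circuit (Fin n) Q), C.Invariant (Fin n) ∧ C.ModGates m 1 ∧
      (C.Computes fun x => f n (wgt x)) ∧ Fintype.card Q ≤ S) :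
    MidPeriodic (f n) n (2 * k + 2) (per m k) := by
  obtain ⟨Q, i1, i2, C, hI, hM, hC, hQ⟩ := h
  obtain ⟨f', hf', hP⟩ := h1 m 1 k (Fin n) Q inferInstance i1 i2 C (fun x => f n (wgt x)) hm hk
    hI hM hC (by
      rw [Fintype.card_fin]
      exact (Nat.pow_le_pow_left hQ 2).trans hS) (by
      rw [Fintype.card_fin]
      exact hn)
  rw [Fintype.card_fin] at hP
  have hw : ∀ w, w ≤ n → (f n w ↔ f' w) := by
    intro w hw
    obtain ⟨x, hx⟩ := exists_wgt hw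
    have := hf' x
    rw [hx] at this
    exact this
  intro w w' a1 a2 a3 a4 a5
  rw [hw w (by omega), hw w' (by omega)]
  exact hP w w' (by omega) (by omega) (by omega) (by omega) a5

theorem per_prime {m k p : ℕ} (hp : p.Prime) (h : p ∣ per m k) : p ∣ m := by
  unfold per at h
  rcases (Nat.Prime.dvd_mul hp).1 h with h | h
  · exact h
  · obtain ⟨q, hq, hd⟩ := (Nat.Prime.prime hp).exists_mem_finset_dvd h
    have h2 := (Nat.prime_dvd_prime_iff_eq hp (Nat.prime_of_mem_primeFactors hq)).1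
      (hp.dvd_of_dvd_pow hd)
    rw [h2]
    exact Nat.dvd_of_mem_primeFactors hq

end D2aux

open D2aux in
theorem D2_holds (h1 : D1) : D2 := by
  rintro f ⟨m, c, e, hm, h⟩
  set w := m.primeFactors.card with hw
  refine ⟨m, 2 * c + 1 + c * w, 32 * (2 * e + 2) ^ 2 + m * (2 * e + 1) ^ w, hm, ?_⟩
  intro n hn
  obtain ⟨l, hl⟩ : ∃ l, l = Nat.log 2 n := ⟨_, rfl⟩
  have hl1 : 1 ≤ l := by
    rw [hl]
    exact Nat.log_pos (by norm_num) hn
  have hlc : 1 ≤ l ^ c := Nat.one_le_pow _ _ hl1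
  set k := 2 * e * l ^ c + 1 with hk
  have hk1 : k ≤ (2 * e + 1) * l ^ c := by
    rw [hk, add_mul, one_mul]
    omega
  have hk2 : k + 1 ≤ (2 * e + 2) * l ^ c := by
    rw [hk, add_mul]
    omega
  have hX : ∀ a, a ≤ 2 * c + 1 + c * w → l ^ a ≤ l ^ (2 * c + 1 + c * w) := fun a ha =>
    Nat.pow_le_pow_right hl1 ha
  have hPle : per m k ≤ m * (2 * e + 1) ^ w * l ^ (2 * c + 1 + c * w) := by
    calc per m k ≤ m * k ^ w := per_le m k (by omega)
      _ ≤ m * ((2 * e + 1) * l ^ c) ^ w := by gcongr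
      _ = m * (2 * e + 1) ^ w * l ^ (c * w) := by rw [mul_pow, ← pow_mul, mul_assoc]
      _ ≤ m * (2 * e + 1) ^ w * l ^ (2 * c + 1 + c * w) :=
          Nat.mul_le_mul_left _ (hX _ (Nat.le_add_left _ _))
  have hbig : 16 * (k + 1) * (k + 1) * (l + 1) ≤ 32 * (2 * e + 2) ^ 2 * l ^ (2 * c + 1 + c * w) := by
    calc 16 * (k + 1) * (k + 1) * (l + 1)
        ≤ 16 * ((2 * e + 2) * l ^ c) * ((2 * e + 2) * l ^ c) * (2 * l) := by
          gcongr
          omega
      _ = 32 * (2 * e + 2) ^ 2 * l ^ (2 * c + 1) := by ring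
      _ ≤ 32 * (2 * e + 2) ^ 2 * l ^ (2 * c + 1 + c * w) :=
          Nat.mul_le_mul_left _ (hX _ (Nat.le_add_right _ _))
  have hsum : (32 * (2 * e + 2) ^ 2 + m * (2 * e + 1) ^ w) * l ^ (2 * c + 1 + c * w) =
      32 * (2 * e + 2) ^ 2 * l ^ (2 * c + 1 + c * w) +
        m * (2 * e + 1) ^ w * l ^ (2 * c + 1 + c * w) := by ring
  rw [← hl, hsum]
  refine ⟨per m k, (per_pos m k hm).ne', by omega, fun p hp hd => per_prime hp hd, ?_⟩
  by_cases hcase : 16 * (k + 1) * (k + 1) * (l + 1) ≤ n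
  · have h2k : 2 * k + 2 ≤ 16 * (k + 1) * (k + 1) * (l + 1) := by
      have e1 : 16 * (k + 1) * (k + 1) * (l + 1) = (k + 1) * (16 * ((k + 1) * (l + 1))) := by ring
      have e2 : 1 ≤ (k + 1) * (l + 1) := Nat.mul_pos (by omega) (by omega)
      have e3 : (k + 1) * 2 ≤ (k + 1) * (16 * ((k + 1) * (l + 1))) :=
        Nat.mul_le_mul_left _ (by omega)
      rw [e1]
      omega
    apply mono (L := 2 * k + 2) (by omega)
    obtain ⟨Q, i1, i2, C, hI, hM, hC, -, hQ⟩ := h n hn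
    have hQ' : Fintype.card Q ≤ 2 ^ (e * l ^ c) := by
      rw [hl]
      exact hQ
    apply main h1 hm (by omega) (S := 2 ^ (e * l ^ c)) _ (by rw [← hl]; exact hcase)
      ⟨Q, i1, i2, C, hI, hM, hC, hQ'⟩
    calc (2 ^ (e * l ^ c)) ^ 2 = 2 ^ (2 * e * l ^ c) := by rw [← pow_mul]; congr 1; ring
      _ ≤ 2 ^ k := Nat.pow_le_pow_right (by norm_num) (by omega)
      _ ≤ n ^ k := Nat.pow_le_pow_left hn k
  · intro w1 w2 a1 a2 a3 a4 a5
    exfalso
    omega

end H688R2.Cla
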