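import Pool.Agent.H688R2.Cla.Spec

/-! Task D3 of project CLA: quasi-polynomial size, upper bound. -/

namespace H688R2.Cla

open Equiv Finset H688R2.Sym

open CG

theorem D3_num (m w n l K : ℕ) (hl : 1 ≤ l) (hK : 1 ≤ K) (hn : n < 2 ^ (l + 1)) :
    2 * (n + 1) ^ (K + K) + n + (m + 1) ^ 2 * (K + 1) + 4 * K + 3 + 2 * m * K ^ w ≤
      2 ^ ((3 * m + w + 10) * (l * K) + 3) := by
  set X := l * K with hX
  have hKX : K ≤ X := Nat.le_mul_of_pos_left K hl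
  have hlX : l ≤ X := Nat.le_mul_of_pos_right l hK
  have hX1 : 1 ≤ X := hK.trans hKX
  have mono : ∀ a b : ℕ, a ≤ b → 2 ^ a ≤ 2 ^ b := fun a b h => Nat.pow_le_pow_right (by norm_num) h
  have hmX : m ≤ m * X := Nat.le_mul_of_pos_right m hX1
  have hn1 : n + 1 ≤ 2 ^ (2 * l) := (Nat.succ_le_of_lt hn).trans (mono _ _ (by omega))
  have t1 : 2 * (n + 1) ^ (K + K) ≤ 2 ^ ((3 * m + w + 10) * X) := by
    calc 2 * (n + 1) ^ (K + K) ≤ 2 * (2 ^ (2 * l)) ^ (K + K) :=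
          Nat.mul_le_mul_left _ (Nat.pow_le_pow_left hn1 _)
      _ = 2 ^ (4 * X + 1) := by
          rw [← pow_mul, pow_succ, hX, mul_comm]
          congr 2
          ring
      _ ≤ _ := mono _ _ (by nlinarith [Nat.zero_le (m * X), Nat.zero_le (w * X)])
  have t2 : n ≤ 2 ^ ((3 * m + w + 10) * X) := by
    calc n ≤ n + 1 := Nat.le_succ n
      _ ≤ 2 ^ (2 * l) := hn1
      _ ≤ _ := mono _ _ (by nlinarith [Nat.zero_le (m * X), Nat.zero_le (w * X)])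
  have hK2 : K + 1 ≤ 2 ^ K := Nat.lt_two_pow_self
  have hm2 : m + 1 ≤ 2 ^ m := Nat.lt_two_pow_self
  have t3 : (m + 1) ^ 2 * (K + 1) ≤ 2 ^ ((3 * m + w + 10) * X) := by
    calc (m + 1) ^ 2 * (K + 1) ≤ (2 ^ m) ^ 2 * 2 ^ K :=
          Nat.mul_le_mul (Nat.pow_le_pow_left hm2 2) hK2
      _ = 2 ^ (m * 2 + K) := by rw [← pow_mul, ← pow_add]
      _ ≤ _ := mono _ _ (by nlinarith [Nat.zero_le (m * X), Nat.zero_le (w * X)])
  have t4 : 4 * K + 3 ≤ 2 ^ ((3 * m + w + 10) * X) := by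
    calc 4 * K + 3 ≤ 4 * (K + 1) := by omega
      _ ≤ 4 * 2 ^ K := Nat.mul_le_mul_left _ hK2
      _ = 2 ^ (K + 2) := by rw [pow_add]; ring
      _ ≤ _ := mono _ _ (by nlinarith [Nat.zero_le (m * X), Nat.zero_le (w * X)])
  have t5 : 2 * m * K ^ w ≤ 2 ^ ((3 * m + w + 10) * X) := by
    calc 2 * m * K ^ w ≤ 2 * 2 ^ m * (2 ^ K) ^ w :=
          Nat.mul_le_mul (Nat.mul_le_mul_left 2 ((Nat.le_succ m).trans hm2))
            (Nat.pow_le_pow_left ((Nat.le_succ K).trans hK2) w)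
      _ = 2 ^ (1 + m + K * w) := by rw [← pow_mul, pow_add, pow_add, pow_one]
      _ ≤ _ := mono _ _ (by
          have : K * w ≤ w * X := by rw [mul_comm]; exact Nat.mul_le_mul_left w hKX
          nlinarith [Nat.zero_le (m * X), Nat.zero_le (w * X)])
  have hfin : 2 ^ ((3 * m + w + 10) * X + 3) = 8 * 2 ^ ((3 * m + w + 10) * X) := by
    rw [pow_add]; ring
  rw [hfin]
  linarith

theorem D3_holds (h1 : C1) (h2 : C2) (h3 : C3) (h9 : C9) (hU : UPP) : D3 := by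
  rintro f ⟨m, c, e, hm, hq⟩
  refine ⟨m, c + 1, (3 * m + m.primeFactors.card + 10 + 3) * e, hm, ?_⟩
  intro n hn
  obtain ⟨P, hP0, hPK, hPp, hper⟩ := hq n hn
  have hl : 1 ≤ Nat.log 2 n := Nat.log_pos (by norm_num) hn
  have hK : 1 ≤ e * Nat.log 2 n ^ c := (Nat.one_le_iff_ne_zero.2 hP0).trans hPK
  obtain ⟨_, _, hdvd⟩ := hU m (e * Nat.log 2 n ^ c) hm hK
  have hd := hdvd P hP0 hPK hPp
  have hper' : MidPeriodic (f n) (Fintype.card (Fin n)) (e * Nat.log 2 n ^ c)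
      (upPer m (e * Nat.log 2 n ^ c)) := by
    rw [Fintype.card_fin]
    intro w w' a1 a2 a3 a4 hmod
    exact hper w w' a1 a2 a3 a4 (Nat.ModEq.of_dvd hd hmod)
  refine ⟨CG (Fin n) m (e * Nat.log 2 n ^ c) (e * Nat.log 2 n ^ c)
    (upPer m (e * Nat.log 2 n ^ c)), inferInstance, inferInstance,
    cir (Fin n) m (e * Nat.log 2 n ^ c) (e * Nat.log 2 n ^ c)
    (upPer m (e * Nat.log 2 n ^ c)) (f n), h1 _ _ _ _ _ _ _, h2 _ _ _ _ _ _ _,
    h9 _ _ _ _ _ _ hm hK hper', ?_, ?_⟩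
  · show ((5 : ℕ) : ℕ∞) ≤ 5
    exact le_refl _
  · have h4 := h3 (Fin n) inferInstance m (e * Nat.log 2 n ^ c) (e * Nat.log 2 n ^ c) hm hK
    rw [Fintype.card_fin] at h4
    have h5 := D3_num m m.primeFactors.card n (Nat.log 2 n) (e * Nat.log 2 n ^ c) hl hK
      (Nat.lt_pow_succ_log_self (by norm_num) n)
    refine h4.trans (h5.trans (Nat.pow_le_pow_right (by norm_num) ?_))
    have hX : Nat.log 2 n * (e * Nat.log 2 n ^ c) = e * Nat.log 2 n ^ (c + 1) := by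
      rw [pow_succ]; ring
    have hX1 : 1 ≤ e * Nat.log 2 n ^ (c + 1) := by
      rw [← hX]; exact Nat.mul_pos hl hK
    rw [hX]
    have : (3 * m + m.primeFactors.card + 10 + 3) * e * Nat.log 2 n ^ (c + 1)
        = (3 * m + m.primeFactors.card + 10) * (e * Nat.log 2 n ^ (c + 1))
          + 3 * (e * Nat.log 2 n ^ (c + 1)) := by ring
    rw [this]
    omega

end H688R2.Cla
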