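import Pool.Agent.H688R2.Cla.Spec

namespace H688R2.Cla

open Equiv Finset H688R2.Sym CG

theorem D3_holds' (h1 : C1) (h2 : C2) (h3 : C3) (h9 : C9) (hU : UPP) : D3 := by
  classical
  rintro f ⟨m, c, e, hm, h⟩
  set W := m.primeFactors.card with hW
  set A := (m + 1) ^ 2 + m + W + 6 with hA
  refine ⟨m, c + 1, (A + 3) * e, hm, ?_⟩
  intro n hn
  obtain ⟨P, hP, hPK, hdiv, hper0⟩ := h n hn
  set l := Nat.log 2 n with hl
  have hl1 : 1 ≤ l := Nat.le_log_of_pow_le (by norm_num) (by simpa using hn)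
  set K := e * l ^ c with hK
  have hK1 : 1 ≤ K := le_trans (Nat.pos_of_ne_zero hP) hPK
  have hper : MidPeriodic (f n) (Fintype.card (Fin n)) K (upPer m K) := by
    rw [Fintype.card_fin]
    intro w w' a1 a2 a3 a4 a5
    exact hper0 w w' a1 a2 a3 a4 (a5.of_dvd ((hU m K hm hK1).2.2 P hP hPK hdiv))
  refine ⟨CG (Fin n) m K K (upPer m K), inferInstance, inferInstance,
    cir (Fin n) m K K (upPer m K) (f n), h1 _ _ _ _ _ _ _, h2 _ _ _ _ _ _ _,
    h9 (Fin n) _ m K K (f n) hm hK1 hper, le_of_eq rfl, ?_⟩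
  refine (h3 (Fin n) _ m K K hm hK1).trans ?_
  rw [Fintype.card_fin]
  set B := l * K with hB
  have hKB : K ≤ B := Nat.le_mul_of_pos_left _ hl1
  have hlB : l ≤ B := Nat.le_mul_of_pos_right _ hK1
  have hB1 : 1 ≤ B := hl1.trans hlB
  have mono : ∀ u, u ≤ A * B → 2 ^ u ≤ 2 ^ (A * B) := fun u hu =>
    Nat.pow_le_pow_right (by norm_num) hu
  have cst : ∀ u, u ≤ A → u * B ≤ A * B := fun u hu => Nat.mul_le_mul_right _ hu
  have hn2 : n + 1 ≤ 2 ^ (2 * l) := by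
    have := Nat.lt_pow_succ_log_self (b := 2) (by norm_num) n
    calc n + 1 ≤ 2 ^ (l + 1) := this
      _ ≤ 2 ^ (2 * l) := Nat.pow_le_pow_right (by norm_num) (by omega)
  have t1 : (n + 1) ^ (K + K) ≤ 2 ^ (A * B) := by
    calc (n + 1) ^ (K + K) ≤ (2 ^ (2 * l)) ^ (K + K) := Nat.pow_le_pow_left hn2 _
      _ = 2 ^ (4 * B) := by rw [← pow_mul]; congr 1; rw [hB]; ring
      _ ≤ _ := mono _ (cst 4 (by omega))
  have t2 : n ≤ 2 ^ (A * B) := by
    calc n ≤ 2 ^ (2 * l) := by omega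
      _ ≤ 2 ^ (2 * B) := Nat.pow_le_pow_right (by norm_num) (by omega)
      _ ≤ _ := mono _ (cst 2 (by omega))
  have hKpow : K + 1 ≤ 2 ^ K := Nat.lt_two_pow_self
  have t3 : (m + 1) ^ 2 * (K + 1) ≤ 2 ^ (A * B) := by
    calc (m + 1) ^ 2 * (K + 1) ≤ 2 ^ ((m + 1) ^ 2) * 2 ^ K :=
          Nat.mul_le_mul Nat.lt_two_pow_self.le hKpow
      _ = 2 ^ ((m + 1) ^ 2 + K) := (pow_add _ _ _).symm
      _ ≤ 2 ^ (((m + 1) ^ 2 + 1) * B) := by
          apply Nat.pow_le_pow_right (by norm_num)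
          have : (m + 1) ^ 2 ≤ (m + 1) ^ 2 * B := Nat.le_mul_of_pos_right _ hB1
          rw [add_mul, one_mul]
          omega
      _ ≤ _ := mono _ (cst _ (by omega))
  have t4 : 4 * K + 3 ≤ 2 ^ (A * B) := by
    calc 4 * K + 3 ≤ 4 * 2 ^ K := by omega
      _ = 2 ^ (2 + K) := by rw [pow_add]; norm_num
      _ ≤ 2 ^ (3 * B) := Nat.pow_le_pow_right (by norm_num) (by omega)
      _ ≤ _ := mono _ (cst 3 (by omega))
  have t5 : 2 * m * K ^ W ≤ 2 ^ (A * B) := by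
    have hKW : K ^ W ≤ 2 ^ (K * W) := by
      calc K ^ W ≤ (2 ^ K) ^ W := Nat.pow_le_pow_left (by omega) _
        _ = _ := by rw [← pow_mul]
    calc 2 * m * K ^ W ≤ 2 * 2 ^ m * 2 ^ (K * W) :=
          Nat.mul_le_mul (Nat.mul_le_mul_left _ Nat.lt_two_pow_self.le) hKW
      _ = 2 ^ (1 + m + K * W) := by rw [pow_add, pow_add]; norm_num
      _ ≤ 2 ^ ((1 + m + W) * B) := by
          apply Nat.pow_le_pow_right (by norm_num)
          have a1 : m ≤ m * B := Nat.le_mul_of_pos_right _ hB1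
          have a2 : K * W ≤ W * B := by rw [mul_comm]; exact Nat.mul_le_mul_left _ hKB
          rw [add_mul, add_mul, one_mul]
          omega
      _ ≤ _ := mono _ (cst _ (by omega))
  have hfin : (A + 3) * e * l ^ (c + 1) = A * B + 3 * B := by
    rw [hB, hK, pow_succ]; ring
  show _ ≤ 2 ^ ((A + 3) * e * l ^ (c + 1))
  rw [hfin]
  calc 2 * (n + 1) ^ (K + K) + n + (m + 1) ^ 2 * (K + 1) + 4 * K + 3 + 2 * m * K ^ W
      ≤ 2 ^ (A * B) * 2 ^ 3 := by norm_num; omega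
    _ = 2 ^ (A * B + 3) := (pow_add _ _ _).symm
    _ ≤ _ := Nat.pow_le_pow_right (by norm_num) (by omega)

end H688R2.Cla
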