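import Pool.Agent.H688R2.Cla.Spec

namespace H688R2.Cla

open Equiv Finset H688R2.Sym

namespace D4aux

theorem exists_wgt {n w : ℕ} (h : w ≤ n) : ∃ x : Fin n → Prop, wgt x = w := by
  classical
  obtain ⟨s, -, hs⟩ := Finset.exists_subset_card_eq (s := (Finset.univ : Finset (Fin n)))
    (n := w) (by rw [Finset.card_univ, Fintype.card_fin]; exact h)
  refine ⟨fun i => i ∈ s, ?_⟩
  unfold wgt
  rw [Nat.card_eq_fintype_card, Fintype.card_coe, hs]

theorem mono {f : ℕ → Prop} {n L L' P : ℕ} (hL : L ≤ L') (h : MidPeriodic f n L P) :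
    MidPeriodic f n L' P := by
  intro w w' h1 h2 h3 h4 h5
  exact h w w' (by omega) (by omega) (by omega) (by omega) h5

theorem main (h1 : D1) {f : ℕ → ℕ → Prop} {m n k S : ℕ} (hm : m ≠ 0) (hk : 1 ≤ k)
    (hS : S ^ 2 ≤ n ^ k) (hn : 16 * (k + 1) * (k + 1) * (Nat.log 2 n + 1) ≤ n)
    (h : ∃ (Q : Type) (_ : Fintype Q) (_ : MulAction (Perm (Fin n)) Q)
      (C : Circuit (Fin n) Q), C.Invariant (Fin n) ∧ C.ModGates m 1 ∧
      (C.Computes fun x => f n (wgt x)) ∧ Fintype.card Q ≤ S) :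
    MidPeriodic (f n) n (2 * k + 2) (per m k) := by
  obtain ⟨Q, i1, i2, C, hI, hM, hC, hQ⟩ := h
  obtain ⟨f', hf', hP⟩ := h1 m 1 k (Fin n) Q inferInstance i1 i2 C (fun x => f n (wgt x)) hm hk
    hI hM hC (by
      rw [Fintype.card_fin]
      exact (Nat.pow_le_pow_left hQ 2).trans hS) (by
      rw [Fintype.card_fin]
      exact hn)
  rw [Fintype.card_fin] at hP
  have hw : ∀ w, w ≤ n → (f n w ↔ f' w) := by
    intro w hw
    obtain ⟨x, hx⟩ := exists_wgt hw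
    have := hf' x
    rw [hx] at this
    exact this
  intro w w' a1 a2 a3 a4 a5
  rw [hw w (by omega), hw w' (by omega)]
  exact hP w w' (by omega) (by omega) (by omega) (by omega) a5

theorem exp_beats (A s : ℕ) (hs : 4 * A ≤ s) : A * (s + 1) ≤ 2 ^ s := by
  obtain ⟨t, ht⟩ : ∃ t, t = s / 2 := ⟨_, rfl⟩
  have h1 : t + 1 ≤ 2 ^ t := Nat.lt_two_pow_self
  have h2 : 2 * A ≤ 2 ^ t := by
    have : 2 * A ≤ t := by omega
    omega
  calc A * (s + 1) ≤ A * (2 * (t + 1)) := Nat.mul_le_mul_left _ (by omega)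
    _ = (2 * A) * (t + 1) := by ring
    _ ≤ 2 ^ t * 2 ^ t := Nat.mul_le_mul h2 h1
    _ = 2 ^ (t + t) := by rw [pow_add]
    _ ≤ 2 ^ s := Nat.pow_le_pow_right (by norm_num) (by omega)

end D4aux

open D4aux in
theorem D4_holds (h1 : D1) : D4 := by
  rintro f ⟨m, e, hm, h⟩
  set k := 2 * e + 1 with hk
  obtain ⟨n0, hn0⟩ : ∃ n0 : ℕ, ∀ n, n0 ≤ n →
      16 * (k + 1) * (k + 1) * (Nat.log 2 n + 1) ≤ n := by
    refine ⟨2 ^ (4 * (16 * (k + 1) * (k + 1))), fun n hn => ?_⟩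
    have hn1 : n ≠ 0 := by
      have : 0 < 2 ^ (4 * (16 * (k + 1) * (k + 1))) := by positivity
      omega
    have hs : 4 * (16 * (k + 1) * (k + 1)) ≤ Nat.log 2 n :=
      (Nat.le_log_iff_pow_le (by norm_num) hn1).2 hn
    exact (exp_beats _ _ hs).trans (Nat.pow_log_le_self 2 hn1)
  refine ⟨max (2 * k + 2) n0, per m k, (per_pos m k hm).ne', fun n hn => ?_⟩
  by_cases hcase : n0 ≤ n
  · apply mono (le_max_left _ _)
    obtain ⟨Q, i1, i2, C, hI, hM, hC, -, hQ⟩ := h n hn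
    apply main h1 hm (by omega) (S := n ^ e) _ (hn0 n hcase) ⟨Q, i1, i2, C, hI, hM, hC, hQ⟩
    rw [← pow_mul]
    exact Nat.pow_le_pow_right (by omega) (by omega)
  · intro w w' a1 a2 a3 a4 a5
    exfalso
    have := le_max_right (2 * k + 2) n0
    omega

end H688R2.Cla
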