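import Pool.Agent.H688R2.Cla.C6b
import Pool.Agent.H688R2.Sym.NoPoly

namespace H688R2.Cla

open Equiv Finset H688R2.Sym

/-- the part of `f n` seen by an invariant circuit -/
theorem mid_of_circuit (h1 : D1) {f : ℕ → ℕ → Prop} {m n k : ℕ} (hm : m ≠ 0) (hk : 1 ≤ k)
    {Q : Type} [Fintype Q] [MulAction (Perm (Fin n)) Q] (C : Circuit (Fin n) Q)
    (hC : C.Invariant (Fin n)) (hG : C.ModGates m 1) (hF : C.Computes fun x => f n (wgt x))
    (hQ : Fintype.card Q ^ 2 ≤ n ^ k)
    (hn : 16 * (k + 1) * (k + 1) * (Nat.log 2 n + 1) ≤ n) :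
    MidPeriodic (f n) n (2 * k + 2) (per m k) := by
  classical
  obtain ⟨g, hg, hp⟩ := h1 m 1 k (Fin n) Q _ _ _ C (fun x => f n (wgt x)) hm hk hC hG hF
    (by rw [Fintype.card_fin]; exact hQ) (by rw [Fintype.card_fin]; exact hn)
  rw [Fintype.card_fin] at hp
  have key : ∀ w, w ≤ n → (f n w ↔ g w) := by
    intro w hw
    obtain ⟨y, -, hy⟩ := exists_subset_card_eq (s := (univ : Finset (Fin n))) (n := w)
      (by rw [card_univ, Fintype.card_fin]; exact hw)
    have h2 := hg (fun i => i ∈ y)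
    have h3 : wgt (fun i => i ∈ y) = w := by
      rw [wgt_eq, ← hy]; congr 1; ext i; simp
    rw [h3] at h2
    exact h2
  intro w w' a1 a2 a3 a4 a5
  rw [key w (by omega), key w' (by omega)]
  exact hp w w' (by omega) (by omega) (by omega) (by omega) a5

theorem D4_holds' (h1 : D1) : D4 := by
  classical
  rintro f ⟨m, e, hm, h⟩
  set k := 2 * e + 1 with hk
  -- for large n the inequality holds
  obtain ⟨s₀, hs₀⟩ : ∃ s₀, ∀ s, s₀ ≤ s → 16 * (k + 1) * (k + 1) * (s + 1) ≤ 2 ^ s := by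
    obtain ⟨s, hs1, hs⟩ := exists_two_pow (16 * (k + 1) * (k + 1)) 2
    refine ⟨s, ?_⟩
    intro t ht
    induction t, ht using Nat.le_induction with
    | base =>
      refine le_trans ?_ hs
      apply Nat.mul_le_mul_left
      omega
    | succ t ht ih =>
      rw [pow_succ]
      have : 16 * (k + 1) * (k + 1) * (t + 1 + 1) ≤ 16 * (k + 1) * (k + 1) * ((t + 1) * 2) := by
        apply Nat.mul_le_mul_left
        omega
      calc _ ≤ _ := this
        _ = 16 * (k + 1) * (k + 1) * (t + 1) * 2 := by ring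
        _ ≤ _ := Nat.mul_le_mul_right _ ih
  refine ⟨2 * k + 2 + 2 ^ s₀, per m k, (per_pos m k hm).ne', ?_⟩
  intro n hn
  by_cases hlarge : 2 ^ s₀ ≤ n
  · obtain ⟨Q, _, _, C, a, b, c, -, d⟩ := h n hn
    have hlog : s₀ ≤ Nat.log 2 n := Nat.le_log_of_pow_le (by norm_num) hlarge
    have hmain := mid_of_circuit h1 (f := f) (n := n) (k := k) hm (by omega) C a b c (by
      calc Fintype.card Q ^ 2 ≤ (n ^ e) ^ 2 := Nat.pow_le_pow_left d 2
        _ = n ^ (2 * e) := by rw [← pow_mul, mul_comm]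
        _ ≤ n ^ k := Nat.pow_le_pow_right (by omega) (by omega))
      ((hs₀ _ hlog).trans (Nat.pow_log_le_self 2 (by omega)))
    intro w w' a1 a2 a3 a4 a5
    generalize 2 ^ s₀ = u at a1 a2 a3 a4
    exact hmain w w' (by omega) (by omega) (by omega) (by omega) a5
  · intro w w' a1 a2 _ _ _
    generalize 2 ^ s₀ = u at a1 a2 hlarge
    exfalso
    omega

end H688R2.Cla
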