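import Pool.Agent.H688R2.Cla.Spec

/-!
# Task D5 (helper347): polynomial size, upper bound
-/

namespace H688R2.Cla

open Equiv Finset H688R2.Sym

theorem D5_num (n a K : ℕ) (hn : 2 ≤ n) :
    2 * (n + 1) ^ a + n + K ≤ n ^ (2 * a + 1 + K + 2) := by
  have h1 : n + 1 ≤ n ^ 2 := by nlinarith
  have h2 : (n + 1) ^ a ≤ n ^ (2 * a) := by
    calc (n + 1) ^ a ≤ (n ^ 2) ^ a := Nat.pow_le_pow_left h1 a
      _ = n ^ (2 * a) := by rw [← pow_mul]
  have h3 : K ≤ n ^ K := by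
    calc K ≤ 2 ^ K := Nat.lt_two_pow_self.le
      _ ≤ n ^ K := Nat.pow_le_pow_left hn K
  have hn0 : 0 < n := by omega
  have h4 : 2 * (n + 1) ^ a ≤ n ^ (2 * a + 1 + K) := by
    calc 2 * (n + 1) ^ a ≤ n * n ^ (2 * a) := Nat.mul_le_mul hn h2
      _ = n ^ (2 * a + 1) := by rw [pow_succ]; ring
      _ ≤ n ^ (2 * a + 1 + K) := Nat.pow_le_pow_right hn0 (by omega)
  have h5 : n ≤ n ^ (2 * a + 1 + K) := by
    calc n = n ^ 1 := (pow_one n).symm
      _ ≤ n ^ (2 * a + 1 + K) := Nat.pow_le_pow_right hn0 (by omega)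
  have h6 : K ≤ n ^ (2 * a + 1 + K) := h3.trans (Nat.pow_le_pow_right hn0 (by omega))
  have h7 : 4 ≤ n ^ 2 := by nlinarith
  calc 2 * (n + 1) ^ a + n + K ≤ 4 * n ^ (2 * a + 1 + K) := by linarith
    _ ≤ n ^ 2 * n ^ (2 * a + 1 + K) := Nat.mul_le_mul_right _ h7
    _ = n ^ (2 * a + 1 + K + 2) := by rw [pow_add n _ 2]; ring

theorem D5_holds (h1 : C1) (h2 : C2) (h3 : C3) (h9 : C9) (hU : UPP) : D5 := by
  rintro f ⟨L, P, hP, hf⟩
  have hP1 : 1 ≤ P := Nat.one_le_iff_ne_zero.mpr hP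
  obtain ⟨_, _, hdvd⟩ := hU P P hP hP1
  have hPd : P ∣ upPer P P := hdvd P hP le_rfl (fun p _ h => h)
  refine ⟨P, 2 * (P + L) + 1 + ((P + 1) ^ 2 * (P + 1) + 4 * L + 3 + 2 * P * P ^ P.primeFactors.card) + 2,
    hP, ?_⟩
  intro n hn
  refine ⟨CG (Fin n) P P L (upPer P P), inferInstance, inferInstance,
    cir (Fin n) P P L (upPer P P) (f n), h1 (Fin n) inferInstance P P L _ _,
    h2 (Fin n) inferInstance P P L _ _, ?_, ?_, ?_⟩
  · apply h9 (Fin n) inferInstance P P L (f n) hP hP1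
    rw [Fintype.card_fin]
    intro w w' a b c d e
    exact hf n hn w w' a b c d (Nat.ModEq.of_dvd hPd e)
  · exact le_of_eq rfl
  · have h := h3 (Fin n) inferInstance P P L hP hP1
    rw [Fintype.card_fin] at h
    refine h.trans ?_
    have := D5_num n (P + L) ((P + 1) ^ 2 * (P + 1) + 4 * L + 3 + 2 * P * P ^ P.primeFactors.card) hn
    refine le_trans (le_of_eq ?_) this
    ring

end H688R2.Cla
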