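import Pool.Agent.H688R2.Cla.Spec

namespace H688R2.Cla

open Equiv Finset H688R2.Sym CG

theorem D5_holds' (h1 : C1) (h2 : C2) (h3 : C3) (h9 : C9) (hU : UPP) : D5 := by
  classical
  rintro f ⟨L, P, hP, h⟩
  have hP1 : 1 ≤ P := Nat.pos_of_ne_zero hP
  set C := (P + 1) ^ 2 * (P + 1) + 4 * L + 3 + 2 * P * P ^ P.primeFactors.card with hC
  refine ⟨P, 2 * (P + L) + C + 2, hP, ?_⟩
  intro n hn
  have hper : MidPeriodic (f n) (Fintype.card (Fin n)) L (upPer P P) := by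
    rw [Fintype.card_fin]
    intro w w' a1 a2 a3 a4 a5
    exact h n hn w w' a1 a2 a3 a4 (a5.of_dvd ((hU P P hP hP1).2.2 P hP le_rfl fun p _ hp => hp))
  refine ⟨CG (Fin n) P P L (upPer P P), inferInstance, inferInstance,
    cir (Fin n) P P L (upPer P P) (f n), h1 _ _ _ _ _ _ _, h2 _ _ _ _ _ _ _,
    h9 (Fin n) _ P P L (f n) hP hP1 hper, le_of_eq rfl, ?_⟩
  refine (h3 (Fin n) _ P P L hP hP1).trans ?_
  rw [Fintype.card_fin]
  show _ ≤ n ^ (2 * (P + L) + C + 2)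
  have e1 : (n + 1) ^ (P + L) ≤ n ^ (2 * (P + L) + C) := by
    calc (n + 1) ^ (P + L) ≤ (n ^ 2) ^ (P + L) := Nat.pow_le_pow_left (by nlinarith) _
      _ = n ^ (2 * (P + L)) := by rw [← pow_mul]
      _ ≤ _ := Nat.pow_le_pow_right (by omega) (by omega)
  have e2 : n ≤ n ^ (2 * (P + L) + C) := by
    calc n = n ^ 1 := (pow_one n).symm
      _ ≤ _ := Nat.pow_le_pow_right (by omega) (by omega)
  have e3 : C ≤ n ^ (2 * (P + L) + C) := by
    calc C ≤ 2 ^ C := Nat.lt_two_pow_self.le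
      _ ≤ n ^ C := Nat.pow_le_pow_left hn _
      _ ≤ _ := Nat.pow_le_pow_right (by omega) (by omega)
  have e4 : n ^ (2 * (P + L) + C + 2) = n ^ (2 * (P + L) + C) * n ^ 2 := pow_add _ _ _
  have e5 : 4 ≤ n ^ 2 := by nlinarith
  calc 2 * (n + 1) ^ (P + L) + n + (P + 1) ^ 2 * (P + 1) + 4 * L + 3 +
        2 * P * P ^ P.primeFactors.card = 2 * (n + 1) ^ (P + L) + n + C := by rw [hC]; ring
    _ ≤ n ^ (2 * (P + L) + C) * 4 := by omega
    _ ≤ _ := by rw [e4]; exact Nat.mul_le_mul_left _ e5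

end H688R2.Cla
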