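import Pool.Agent.H688R2.Sym.Defs

/-!
# Symmetric functions computed by symmetric circuits: definitions
-/

namespace H688R2.Cla

open Equiv H688R2.Sym

/-- In the range where at least `L` inputs are true and at least `L` are false (`n` inputs
altogether), the truth of `f w`, `w` the number of true inputs, depends only on `w` modulo `P`. -/
def MidPeriodic (f : ℕ → Prop) (n L P : ℕ) : Prop :=
  ∀ w w' : ℕ, L ≤ w → w + L ≤ n → L ≤ w' → w' + L ≤ n → w ≡ w' [MOD P] → (f w ↔ f w')

/-- the number of true inputs -/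
noncomputable def wgt {α : Type*} (x : α → Prop) : ℕ := Nat.card {a // x a}

/-- The functions `f n` of the number of true inputs among `n` have circuits with `AND`, `OR`,
`NOT`, `MOD_m` gates for some fixed `m`, invariant under all permutations of the inputs, of depth
at most `d` and size at most `s n`. -/
def SymCir (f : ℕ → ℕ → Prop) (m : ℕ) (d : ℕ∞) (s : ℕ → ℕ) : Prop :=
  ∀ n, 2 ≤ n → ∃ (Q : Type) (_ : Fintype Q) (_ : MulAction (Perm (Fin n)) Q)
    (C : Circuit (Fin n) Q), C.Invariant (Fin n) ∧ C.ModGates m 1 ∧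
    (C.Computes fun x => f n (wgt x)) ∧ (C.level C.out : ℕ∞) ≤ d ∧ Fintype.card Q ≤ s n

/-- Quasi-polynomial size. -/
def QuasiSym (f : ℕ → ℕ → Prop) (d : ℕ∞) : Prop :=
  ∃ m c e : ℕ, m ≠ 0 ∧ SymCir f m d fun n => 2 ^ (e * Nat.log 2 n ^ c)

/-- Polynomial size. -/
def PolySym (f : ℕ → ℕ → Prop) (d : ℕ∞) : Prop :=
  ∃ m e : ℕ, m ≠ 0 ∧ SymCir f m d fun n => n ^ e

/-- Except for the first and last polylogarithmically many numbers, `f n` has a polylogarithmic
period, all of whose prime factors divide a fixed number `m`. -/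
def QuasiPer (f : ℕ → ℕ → Prop) : Prop :=
  ∃ m c e : ℕ, m ≠ 0 ∧ ∀ n, 2 ≤ n → ∃ P, P ≠ 0 ∧ P ≤ e * Nat.log 2 n ^ c ∧
    (∀ p, p.Prime → p ∣ P → p ∣ m) ∧ MidPeriodic (f n) n (e * Nat.log 2 n ^ c) P

/-- Except for a constant number of first and last numbers, `f n` has a constant period. -/
def PolyPer (f : ℕ → ℕ → Prop) : Prop :=
  ∃ L P : ℕ, P ≠ 0 ∧ ∀ n, 2 ≤ n → MidPeriodic (f n) n L P

end H688R2.Cla
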