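import Pool.Agent.H688R2.Sym.Correct
import Pool.Agent.H688R2.Cla.Defs

/-!
# Symmetric functions computed by symmetric circuits: specification
-/

namespace H688R2.Cla

open Equiv Finset H688R2.Sym

/-- The product of the prime powers `p ^ (⌊log_p k⌋ + 1)` for the primes `p ∣ m`. -/
def upPer (m k : ℕ) : ℕ := ∏ p ∈ m.primeFactors, p ^ (Nat.log p k + 1)

/-- the gates of the symmetric circuit -/
inductive CG (α : Type*) (m k L P : ℕ)
  | inp (a : α)
  | mon (T : {T : Finset α // T.card ≤ k + L})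
  | mof (T : {T : Finset α // T.card ≤ k + L})
  | dig (p : Fin (m + 1)) (e : Fin (k + 1)) (c : Fin (m + 1))
  | geT (j : Fin (L + 1))
  | geF (j : Fin (L + 1))
  | lo (j : Fin L)
  | hi (j : Fin L)
  | eqn (r : Fin P)
  | mid (r : Fin P)
  | top

namespace CG

variable {α : Type*} {m k L P : ℕ}

/-- as a sum type -/
def toSum : CG α m k L P ≃ α ⊕ ({T : Finset α // T.card ≤ k + L} ⊕
    ({T : Finset α // T.card ≤ k + L} ⊕ ((Fin (m + 1) × Fin (k + 1) × Fin (m + 1)) ⊕
      (Fin (L + 1) ⊕ (Fin (L + 1) ⊕ (Fin L ⊕ (Fin L ⊕ (Fin P ⊕ (Fin P ⊕ Unit))))))))) where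
  toFun
    | inp a => .inl a
    | mon T => .inr (.inl T)
    | mof T => .inr (.inr (.inl T))
    | dig p e c => .inr (.inr (.inr (.inl (p, e, c))))
    | geT j => .inr (.inr (.inr (.inr (.inl j))))
    | geF j => .inr (.inr (.inr (.inr (.inr (.inl j)))))
    | lo j => .inr (.inr (.inr (.inr (.inr (.inr (.inl j))))))
    | hi j => .inr (.inr (.inr (.inr (.inr (.inr (.inr (.inl j)))))))
    | eqn r => .inr (.inr (.inr (.inr (.inr (.inr (.inr (.inr (.inl r))))))))
    | mid r => .inr (.inr (.inr (.inr (.inr (.inr (.inr (.inr (.inr (.inl r)))))))))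
    | top => .inr (.inr (.inr (.inr (.inr (.inr (.inr (.inr (.inr (.inr ())))))))))
  invFun
    | .inl a => inp a
    | .inr (.inl T) => mon T
    | .inr (.inr (.inl T)) => mof T
    | .inr (.inr (.inr (.inl (p, e, c)))) => dig p e c
    | .inr (.inr (.inr (.inr (.inl j)))) => geT j
    | .inr (.inr (.inr (.inr (.inr (.inl j))))) => geF j
    | .inr (.inr (.inr (.inr (.inr (.inr (.inl j)))))) => lo j
    | .inr (.inr (.inr (.inr (.inr (.inr (.inr (.inl j))))))) => hi j
    | .inr (.inr (.inr (.inr (.inr (.inr (.inr (.inr (.inl r)))))))) => eqn r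
    | .inr (.inr (.inr (.inr (.inr (.inr (.inr (.inr (.inr (.inl r))))))))) => mid r
    | .inr (.inr (.inr (.inr (.inr (.inr (.inr (.inr (.inr (.inr ()))))))))) => top
  left_inv := by rintro (_ | _ | _ | _ | _ | _ | _ | _ | _ | _ | _) <;> rfl
  right_inv := by
    rintro (_ | _ | _ | ⟨_, _, _⟩ | _ | _ | _ | _ | _ | _ | _) <;> rfl

noncomputable instance [Fintype α] : Fintype (CG α m k L P) := Fintype.ofEquiv _ toSum.symm

/-- permutations act on the inputs and on the conjunctions -/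
def act (π : Perm α) : CG α m k L P → CG α m k L P
  | inp a => inp (π a)
  | mon T => mon ⟨T.1.map π.toEmbedding, by rw [card_map]; exact T.2⟩
  | mof T => mof ⟨T.1.map π.toEmbedding, by rw [card_map]; exact T.2⟩
  | dig p e c => dig p e c
  | geT j => geT j
  | geF j => geF j
  | lo j => lo j
  | hi j => hi j
  | eqn r => eqn r
  | mid r => mid r
  | top => top

noncomputable instance : MulAction (Perm α) (CG α m k L P) where
  smul := act
  one_smul := by
    rintro (_ | T | T | _ | _ | _ | _ | _ | _ | _ | _) <;> try rfl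
    · show mon _ = mon _
      congr 1
      apply Subtype.ext
      ext x
      simp
      rfl
    · show mof _ = mof _
      congr 1
      apply Subtype.ext
      ext x
      simp
      rfl
  mul_smul := by
    rintro π σ (_ | T | T | _ | _ | _ | _ | _ | _ | _ | _) <;> try rfl
    · show mon _ = mon _
      congr 1
      apply Subtype.ext
      ext x
      simp
      rfl
    · show mof _ = mof _
      congr 1
      apply Subtype.ext
      ext x
      simp
      rfl

theorem smul_def (π : Perm α) (q : CG α m k L P) : π • q = act π q := rfl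

end CG

open CG

open scoped Classical in
/-- The symmetric circuit for the function that is true if `f` holds for the number of true
inputs. -/
noncomputable def cir (α : Type*) [Fintype α] (m k L P : ℕ) (f : ℕ → Prop) :
    Circuit α (CG α m k L P) where
  level
    | inp _ => 0
    | mon _ => 1
    | mof _ => 1
    | dig _ _ _ => 2
    | geT _ => 2
    | geF _ => 2
    | lo _ => 3
    | hi _ => 3
    | eqn _ => 3
    | mid _ => 4
    | top => 5
  input
    | inp a => some a
    | _ => none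
  wires
    | mon T, inp a => if a ∈ T.1 then 1 else 0
    | mof T, inp a => if a ∈ T.1 then 1 else 0
    | dig _ e _, mon T => if T.1.card = e.1 then 1 else 0
    | geT j, mon T => if T.1.card = j.1 then 1 else 0
    | geF j, mof T => if T.1.card = j.1 then 1 else 0
    | lo j, geT i => if i.1 = j.1 ∨ i.1 = j.1 + 1 then 1 else 0
    | hi j, geF i => if i.1 = j.1 ∨ i.1 = j.1 + 1 then 1 else 0
    | eqn r, dig p e c => if p.1 ∈ m.primeFactors ∧ (∃ g, e.1 = p.1 ^ g) ∧
        r.1.choose e.1 % p.1 = c.1 then 1 else 0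
    | mid _, geT i => if i.1 = L then 1 else 0
    | mid _, geF i => if i.1 = L then 1 else 0
    | mid r, eqn r' => if r = r' then 1 else 0
    | top, lo j => if f j.1 then 1 else 0
    | top, hi j => if f (Fintype.card α - j.1) then 1 else 0
    | top, mid r => if ∃ w, L ≤ w ∧ w + L ≤ Fintype.card α ∧ w % P = r.1 ∧ f w then 1 else 0
    | _, _ => 0
  gate
    | inp _ => fun _ _ => True
    | mon _ => fun _ b => b = 0
    | mof _ => fun a _ => a = 0
    | dig p _ c => fun a _ => if p.1 ∣ m then a % p.1 = c.1 else True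
    | geT _ => fun a _ => a ≠ 0
    | geF _ => fun a _ => a ≠ 0
    | lo _ => fun a b => a ≠ 0 ∧ b ≠ 0
    | hi _ => fun a b => a ≠ 0 ∧ b ≠ 0
    | eqn _ => fun _ b => b = 0
    | mid _ => fun _ b => b = 0
    | top => fun a _ => a ≠ 0
  out := top
  level_lt := by
    rintro (_ | _ | _ | _ | _ | _ | _ | _ | _ | _ | _)
      (_ | _ | _ | _ | _ | _ | _ | _ | _ | _ | _) h <;> simp at h ⊢

/-! ## Statements -/

/-- C1 -/
def C1 : Prop := ∀ (α : Type) (_ : Fintype α) (m k L P : ℕ) (f : ℕ → Prop),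
  (cir α m k L P f).Invariant α

/-- C2 -/
def C2 : Prop := ∀ (α : Type) (_ : Fintype α) (m k L P : ℕ) (f : ℕ → Prop),
  (cir α m k L P f).ModGates m 1

/-- C3: the number of gates -/
def C3 : Prop := ∀ (α : Type) (_ : Fintype α) (m k L : ℕ), m ≠ 0 → 1 ≤ k →
  Fintype.card (CG α m k L (upPer m k)) ≤ 2 * (Fintype.card α + 1) ^ (k + L) + Fintype.card α +
    (m + 1) ^ 2 * (k + 1) + 4 * L + 3 + 2 * m * k ^ m.primeFactors.card

/-- C4: conjunctions -/
def C4 : Prop := ∀ (α : Type) (_ : Fintype α) (m k L P : ℕ) (f : ℕ → Prop) (x : α → Prop)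
  (T : {T : Finset α // T.card ≤ k + L}),
  ((cir α m k L P f).val x (mon T) ↔ ∀ a ∈ T.1, x a) ∧
  ((cir α m k L P f).val x (mof T) ↔ ∀ a ∈ T.1, ¬ x a)

/-- C5: digits -/
def C5 : Prop := ∀ (α : Type) (_ : Fintype α) (m k L P : ℕ) (f : ℕ → Prop) (x : α → Prop)
  (p : Fin (m + 1)) (e : Fin (k + 1)) (c : Fin (m + 1)), p.1 ∣ m →
  ((cir α m k L P f).val x (dig p e c) ↔ (wgt x).choose e.1 % p.1 = c.1)

/-- C6: thresholds -/
def C6 : Prop := ∀ (α : Type) (_ : Fintype α) (m k L P : ℕ) (f : ℕ → Prop) (x : α → Prop)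
  (j : Fin (L + 1)),
  ((cir α m k L P f).val x (geT j) ↔ j.1 ≤ wgt x) ∧
  ((cir α m k L P f).val x (geF j) ↔ wgt x + j.1 ≤ Fintype.card α)

/-- C7: exact values near the ends -/
def C7 : Prop := ∀ (α : Type) (_ : Fintype α) (m k L P : ℕ) (f : ℕ → Prop) (x : α → Prop)
  (j : Fin L),
  ((cir α m k L P f).val x (lo j) ↔ wgt x = j.1) ∧
  ((cir α m k L P f).val x (hi j) ↔ wgt x + j.1 = Fintype.card α)

/-- C8: residues -/
def C8 : Prop := ∀ (α : Type) (_ : Fintype α) (m k L : ℕ) (f : ℕ → Prop) (x : α → Prop)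
  (r : Fin (upPer m k)), m ≠ 0 → 1 ≤ k →
  ((cir α m k L (upPer m k) f).val x (eqn r) ↔ wgt x % upPer m k = r.1)

/-- C9: the output -/
def C9 : Prop := ∀ (α : Type) (_ : Fintype α) (m k L : ℕ) (f : ℕ → Prop), m ≠ 0 → 1 ≤ k →
  MidPeriodic f (Fintype.card α) L (upPer m k) →
  (cir α m k L (upPer m k) f).Computes fun x => f (wgt x)

/-- D1: all symmetric circuits compute periodic functions -/
def D1 : Prop := ∀ (m t k : ℕ) (α Q : Type) (_ : Fintype α) (_ : Fintype Q)
  (_ : MulAction (Perm α) Q) (C : Circuit α Q) (F : (α → Prop) → Prop),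
  m ≠ 0 → 1 ≤ k → C.Invariant α → C.ModGates m t → C.Computes F →
  Fintype.card Q ^ 2 ≤ Fintype.card α ^ k →
  16 * (k + 1) * (k + 1) * (Nat.log 2 (Fintype.card α) + 1) ≤ Fintype.card α →
  ∃ f : ℕ → Prop, (∀ x, F x ↔ f (wgt x)) ∧
    MidPeriodic f (Fintype.card α) (2 * k + t + 1) (per m k)

/-- D2 (from D1): quasi-polynomial size, lower bound -/
def D2 : Prop := ∀ f : ℕ → ℕ → Prop, QuasiSym f ⊤ → QuasiPer f

/-- D3 (from C1-C9): quasi-polynomial size, upper bound -/
def D3 : Prop := ∀ f : ℕ → ℕ → Prop, QuasiPer f → QuasiSym f 5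

/-- D4 (from D1): polynomial size, lower bound -/
def D4 : Prop := ∀ f : ℕ → ℕ → Prop, PolySym f ⊤ → PolyPer f

/-- D5 (from C1-C9): polynomial size, upper bound -/
def D5 : Prop := ∀ f : ℕ → ℕ → Prop, PolyPer f → PolySym f 5

/-- UPP: elementary facts about `upPer` -/
def UPP : Prop := ∀ m k : ℕ, m ≠ 0 → 1 ≤ k →
  0 < upPer m k ∧ upPer m k ≤ m * k ^ m.primeFactors.card ∧
  (∀ P, P ≠ 0 → P ≤ k → (∀ p, p.Prime → p ∣ P → p ∣ m) → P ∣ upPer m k)

end H688R2.Cla
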