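import Pool.Agent.H688R2.Cla.Spec

namespace H688R2.Cla

open Finset

theorem UPP_holds : UPP := by
  intro m k hm hk
  refine ⟨?_, ?_, ?_⟩
  · exact Finset.prod_pos fun p hp => pow_pos (Nat.prime_of_mem_primeFactors hp).pos _
  · unfold upPer
    have h1 : ∏ p ∈ m.primeFactors, p ^ (Nat.log p k + 1)
        = (∏ p ∈ m.primeFactors, p) * ∏ p ∈ m.primeFactors, p ^ Nat.log p k := by
      rw [← Finset.prod_mul_distrib]
      apply Finset.prod_congr rfl
      intro p _
      rw [pow_succ, mul_comm]
    rw [h1]
    apply Nat.mul_le_mul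
    · exact Nat.le_of_dvd (Nat.pos_of_ne_zero hm) (Nat.prod_primeFactors_dvd m)
    · calc ∏ p ∈ m.primeFactors, p ^ Nat.log p k ≤ ∏ _p ∈ m.primeFactors, k :=
            Finset.prod_le_prod' fun p _ => Nat.pow_log_le_self p (by omega)
        _ = k ^ m.primeFactors.card := by rw [Finset.prod_const]
  · intro P hP hPk hp
    conv_lhs => rw [← Nat.factorization_prod_pow_eq_self hP]
    unfold Finsupp.prod
    have hsub : P.factorization.support ⊆ m.primeFactors := by
      intro p hp'
      rw [Nat.support_factorization] at hp'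
      have h2 := Nat.mem_primeFactors.1 hp'
      exact Nat.mem_primeFactors.2 ⟨h2.1, hp p h2.1 h2.2.1, hm⟩
    have h3 : ∏ p ∈ P.factorization.support, p ^ P.factorization p ∣
        ∏ p ∈ P.factorization.support, p ^ (Nat.log p k + 1) := by
      apply Finset.prod_dvd_prod_of_dvd
      intro p hp'
      rw [Nat.support_factorization] at hp'
      have h2 := Nat.mem_primeFactors.1 hp'
      apply pow_dvd_pow
      have h4 : p ^ P.factorization p ≤ k :=
        (Nat.le_of_dvd (Nat.pos_of_ne_zero hP) (Nat.ordProj_dvd P p)).trans hPk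
      have := Nat.le_log_of_pow_le h2.1.one_lt h4
      omega
    exact h3.trans (Finset.prod_dvd_prod_of_subset _ _ _ hsub)

end H688R2.Cla
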